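import Pool.Agent.Lib.SmL.G6.TowerN

/-!
# SMITH-L, block G6: what block L needs for one vector of marked primes
-/

set_option autoImplicit false

namespace Pool.Agent.SmL.CData

variable {l : ℕ} {A G V V1 Pl : Type} [CommRing A] [Group G] [AddCommGroup V] [Module A V]
  [DistribMulAction G V] [AddCommGroup V1] [Module (ZMod l) V1] {S : Sys l A G V V1 Pl}
  {X : PSys} {cd : CData S X} {J : Type} [Fintype J] {ex : J → ZMod l}

/-- **Block G6.** -/
theorem lfactsN [Nonempty J] (h : S.Ok) (hc : cd.Ok) {p : J → cd.Mk} (hp : cd.PVecN p)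
    (hex : ∀ j, ex j ≠ 0) : cd.LFactsN ex p where
  fin := fun i => Tower.finite_Z (twN_ok (U := cd.VF p) (ex := ex) h hc (fun _ => Iff.rfl) hp) i
  card_zero := Tower.card_Z_zero (twN_ok (U := cd.VF p) (ex := ex) h hc (fun _ => Iff.rfl) hp)
  card_succ := fun i => by
    rw [card_LflN (U := cd.VF p) h hc (fun _ => Iff.rfl) hp (Nat.succ_le_succ (Nat.zero_le i))]
    exact Tower.card_Z_succ (twN_ok (U := cd.VF p) (ex := ex) h hc (fun _ => Iff.rfl) hp) i
  recur := fun i hi => recursionN (U := cd.VF p) h hc (fun _ => Iff.rfl) hp hex hi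
  recur' := fun i hi => recursionN' (U := cd.VF p) h hc (fun _ => Iff.rfl) hp hex hi
  basis := fun m hm a ha b hb hI => exists_basisN (U := cd.VF p) h hc (fun _ => Iff.rfl) hp hex hm
    ⟨a, FN_le (fun _ => Iff.rfl) (LflN_sub_FN (U := cd.VF p) h hc (fun _ => Iff.rfl) hp hm ha)⟩
    ⟨b, FN_le (fun _ => Iff.rfl) hb⟩ ha hb hI
  basisD := fun m hm a ha ha' => exists_basisD (U := cd.VF p) h hc (fun _ => Iff.rfl) hp hex hm
    ⟨a, FN_le (fun _ => Iff.rfl) (LflN_sub_FN (U := cd.VF p) h hc (fun _ => Iff.rfl) hp hm ha)⟩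
    ha ha'

end Pool.Agent.SmL.CData
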