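import Pool.Agent.Lib.SmL.G6.TowerA

/-!
# SMITH, block G6: cardinalities and the recursion
-/

set_option autoImplicit false

namespace Pool.Agent.SmL

namespace Tower

variable {l : ℕ} {A F M M' : Type*} [CommRing A] [AddCommGroup F] [Module (ZMod l) F]
  [AddCommGroup M] [Module A M] [AddCommGroup M'] [Module A M'] {W : Tower l A F M}
  {W' : Tower l A F M'}

/-! ### The splitting `Z (j+1) ≃ L (j+1) × Z j` -/

private noncomputable def rep (W : Tower l A F M) (j : ℕ) (a : W.L (j + 1)) : M :=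
  ((W.mem_L (j + 1) a.1).1 a.2).choose

private theorem rep_mem (W : Tower l A F M) (j : ℕ) (a : W.L (j + 1)) : rep W j a ∈ W.Z (j + 1) :=
  ((W.mem_L (j + 1) a.1).1 a.2).choose_spec.1

private theorem rep_code (W : Tower l A F M) (j : ℕ) (a : W.L (j + 1)) :
    W.lam ^ j • rep W j a = W.c a.1 := ((W.mem_L (j + 1) a.1).1 a.2).choose_spec.2

private theorem code_ex (h : W.Ok) (j : ℕ) (m : W.Z (j + 1)) :
    ∃ a : F, W.lam ^ j • (m : M) = W.c a := by
  obtain ⟨a, _, e⟩ := exists_code h (Nat.succ_le_succ (Nat.zero_le j)) m.2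
  exact ⟨a, e⟩

private noncomputable def code (h : W.Ok) (j : ℕ) (m : W.Z (j + 1)) : W.L (j + 1) :=
  ⟨(code_ex h j m).choose, (W.mem_L _ _).2 ⟨m, m.2, by
    rw [Nat.add_sub_cancel]; exact (code_ex h j m).choose_spec⟩⟩

private theorem code_spec (h : W.Ok) (j : ℕ) (m : W.Z (j + 1)) :
    W.lam ^ j • (m : M) = W.c (code h j m).1 := (code_ex h j m).choose_spec

private theorem code_eq (h : W.Ok) (j : ℕ) (m : W.Z (j + 1)) (a : W.L (j + 1))
    (e : W.lam ^ j • (m : M) = W.c a.1) : code h j m = a := by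
  apply Subtype.ext
  apply h.cinj
  rw [← code_spec h j m, e]

private noncomputable def split (h : W.Ok) (j : ℕ) : W.Z (j + 1) ≃ W.L (j + 1) × W.Z j where
  toFun m := (code h j m, ⟨m - rep W j (code h j m), by
    refine h.low j _ (AddSubgroup.sub_mem _ m.2 (rep_mem W j _)) ?_
    rw [smul_sub, rep_code, code_spec h j m, sub_self]⟩)
  invFun p := ⟨rep W j p.1 + p.2, AddSubgroup.add_mem _ (rep_mem W j _) (h.mono _ p.2.2)⟩
  left_inv m := by
    apply Subtype.ext
    simp
  right_inv p := by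
    obtain ⟨a, m⟩ := p
    have : code h j ⟨rep W j a + m, AddSubgroup.add_mem _ (rep_mem W j _) (h.mono _ m.2)⟩ = a := by
      apply code_eq
      rw [smul_add, rep_code, h.lev j _ m.2, add_zero]
    ext1
    · exact this
    · apply Subtype.ext
      simp only [this]
      simp

theorem finite_Z (h : W.Ok) (j : ℕ) : Finite (W.Z j) := by
  induction j with
  | zero => rw [h.zero]; exact inferInstance
  | succ j ih =>
    have := h.fin
    exact Finite.of_equiv _ (split h j).symm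

theorem card_Z_zero (h : W.Ok) : Nat.card (W.Z 0) = 1 := by
  rw [h.zero]; simp

theorem card_Z_succ (h : W.Ok) (j : ℕ) :
    Nat.card (W.Z (j + 1)) = Nat.card (W.Z j) * Nat.card (W.L (j + 1)) := by
  rw [Nat.card_congr (split h j), Nat.card_prod, mul_comm]

theorem card_Z_one (h : W.Ok) : Nat.card (W.Z 1) = Nat.card W.Fs := by
  rw [card_Z_succ h, card_Z_zero h, L_one h, one_mul]

theorem card_Z_pos (h : W.Ok) (j : ℕ) : 0 < Nat.card (W.Z j) := by
  have := finite_Z h j
  exact Nat.card_pos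

theorem card_Z_le (h : W.Ok) (j : ℕ) : Nat.card (W.Z j) ≤ Nat.card W.Fs ^ j := by
  have := h.fin
  induction j with
  | zero => rw [card_Z_zero h]; simp
  | succ j ih =>
    rw [card_Z_succ h, pow_succ]
    refine Nat.mul_le_mul ih ?_
    exact Nat.card_le_card_of_injective
      (fun x : W.L (j + 1) => (⟨x.1, L_le_Fs h (Nat.succ_le_succ (Nat.zero_le j)) x.2⟩ : W.Fs))
      (fun x y hxy => Subtype.ext (congrArg (fun z : W.Fs => (z : F)) hxy))

theorem same_L (h : W.Ok) (h' : W'.Ok) (hF : W.Fs = W'.Fs) {j : ℕ}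
    (hl : ∀ i, 1 ≤ i → i < j → W.Lam i = W'.Lam i) {i : ℕ} (hi : 1 ≤ i) (hij : i ≤ j) :
    W.L i = W'.L i := by
  rcases Nat.lt_or_ge 1 i with h1 | h1
  · obtain ⟨e, rfl⟩ := Nat.exists_eq_add_of_le' h1
    have he : 1 ≤ e + 1 := Nat.succ_le_succ (Nat.zero_le _)
    ext a
    rw [← lam_zero_right h he, ← lam_zero_right h' he, hl (e + 1) he hij]
  · have : i = 1 := le_antisymm h1 hi
    subst this
    rw [L_one h, L_one h', hF]

theorem same_card (h : W.Ok) (h' : W'.Ok) (hF : W.Fs = W'.Fs) {j : ℕ}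
    (hl : ∀ i, 1 ≤ i → i < j → W.Lam i = W'.Lam i) {i : ℕ} (hij : i ≤ j) :
    Nat.card (W.Z i) = Nat.card (W'.Z i) := by
  induction i with
  | zero => rw [card_Z_zero h, card_Z_zero h']
  | succ i ih =>
    rw [card_Z_succ h, card_Z_succ h', ih (Nat.le_of_succ_le hij),
      same_L h h' hF hl (Nat.succ_le_succ (Nat.zero_le _)) hij]

theorem same_perp (h : W.Ok) (h' : W'.Ok) (hF : W.Fs = W'.Fs) {j : ℕ}
    (hl : 1 ≤ j → W.Lam j = W'.Lam j) (b : F) : W.Perp j b ↔ W'.Perp j b := by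
  rcases Nat.eq_zero_or_pos j with rfl | hj
  · rw [perp_zero h, perp_zero h', hF]
  · rw [perp_iff_lam h hj, perp_iff_lam h' hj, hl hj, hF]

/-! ### Character sums -/

section

variable (psi : AddChar (ZMod l) ℂ)

private theorem char_sum (h : W.Ok) (hpsi : ∀ x, x ≠ 0 → psi x ≠ 1) [Fintype W.Fs] {j : ℕ} {m : M}
    (hm : m ∈ W.Z j) :
    ∑ b : W.Fs, psi (W.P m (W.c b)) =
      open Classical in if W.ev m = 0 then (Nat.card W.Fs : ℂ) else 0 := by
  classical
  split_ifs with h0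
  · have : ∀ b : W.Fs, W.P m (W.c b) = 0 := fun b => by
      rw [← ev_of_mem b.2, h0]; rfl
    simp [this]
  · obtain ⟨b0, hb0⟩ : ∃ b0 : W.Fs, W.P m (W.c b0) ≠ 0 := by
      by_contra hcon
      push Not at hcon
      apply h0
      funext b
      by_cases hb : b ∈ W.Fs
      · rw [ev_of_mem hb]
        exact hcon ⟨b, hb⟩
      · rw [ev_of_notMem hb]; rfl
    have h1 := hpsi _ hb0
    have h2 : ∑ b : W.Fs, psi (W.P m (W.c b)) =
        ∑ b : W.Fs, psi (W.P m (W.c ((b + b0 : W.Fs) : F))) :=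
      (Fintype.sum_equiv (Equiv.addRight b0) _ _ (fun _ => rfl)).symm
    have h3 : ∑ b : W.Fs, psi (W.P m (W.c ((b + b0 : W.Fs) : F))) =
        psi (W.P m (W.c b0)) * ∑ b : W.Fs, psi (W.P m (W.c b)) := by
      rw [Finset.mul_sum]
      refine Finset.sum_congr rfl fun b _ => ?_
      rw [Submodule.coe_add, P_add_right h hm b.2 b0.2, AddChar.map_add_eq_mul, mul_comm]
    rw [h3] at h2
    have h4 : (psi (W.P m (W.c b0)) - 1) * ∑ b : W.Fs, psi (W.P m (W.c b)) = 0 := by
      rw [sub_mul, one_mul, ← h2, sub_self]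
    exact (mul_eq_zero.1 h4).resolve_left (sub_ne_zero.2 h1)

/-! ### Multiplication by `lam` -/

private noncomputable def dsplit (h : W.Ok) (j : ℕ) :
    W.Z (j + 1) ≃ {m : W.Z j // W.ev m = 0} × W.Fs := by
  have hex : ∀ m : {m : W.Z j // W.ev m = 0},
      ∃ m' ∈ W.Z (j + 1), W.lam • m' = (m.1 : M) := fun m => (ev_eq_zero_iff h m.1.2).1 m.2
  choose g hg hg2 using hex
  let D : W.Z (j + 1) → {m : W.Z j // W.ev m = 0} := fun m =>
    ⟨⟨W.lam • (m : M), dbl_mem h m.2⟩, (ev_eq_zero_iff h (dbl_mem h m.2)).2 ⟨m, m.2, rfl⟩⟩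
  have hdiff : ∀ m : W.Z (j + 1), ∃ a : W.Fs, W.c a = (m : M) - g (D m) := by
    intro m
    obtain ⟨a, ha, e⟩ := (h.crange _).1
      (low_mem h (i := 1) (AddSubgroup.sub_mem _ m.2 (hg (D m))) (by
        rw [pow_one, smul_sub, hg2, sub_self]))
    exact ⟨⟨a, ha⟩, e⟩
  choose e he using hdiff
  refine
    { toFun := fun m => (D m, e m)
      invFun := fun p => ⟨g p.1 + W.c p.2, AddSubgroup.add_mem _ (hg _)
        (Zmono h (Nat.succ_le_succ (Nat.zero_le _)) (cmem h p.2.2))⟩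
      left_inv := fun m => ?_
      right_inv := fun p => ?_ }
  · apply Subtype.ext
    simp only [he]
    abel
  · obtain ⟨m, a⟩ := p
    have h1 : D ⟨g m + W.c a, AddSubgroup.add_mem _ (hg _)
        (Zmono h (Nat.succ_le_succ (Nat.zero_le _)) (cmem h a.2))⟩ = m := by
      apply Subtype.ext
      apply Subtype.ext
      change W.lam • (g m + W.c a) = _
      rw [smul_add, hg2, c_two h, add_zero]
    ext1
    · exact h1
    · apply Subtype.ext
      apply h.cinj
      rw [he]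
      simp only [h1]
      abel

theorem card_sum (h : W.Ok) (hpsi : ∀ x, x ≠ 0 → psi x ≠ 1) [Fintype W.Fs] (j : ℕ)
    [Fintype (W.Z j)] :
    (Nat.card (W.Z (j + 1)) : ℂ) = ∑ m : W.Z j, ∑ b : W.Fs, psi (W.P m (W.c b)) := by
  classical
  have h1 : ∀ m : W.Z j, ∑ b : W.Fs, psi (W.P m (W.c b)) =
      if W.ev m = 0 then (Nat.card W.Fs : ℂ) else 0 := fun m => char_sum psi h hpsi m.2
  rw [Finset.sum_congr rfl fun m _ => h1 m, ← Finset.sum_filter, Finset.sum_const, nsmul_eq_mul,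
    Nat.card_congr (dsplit h j), Nat.card_prod, Nat.card_eq_fintype_card (α := {m : W.Z j // _}),
    Fintype.card_subtype]
  push_cast
  rfl

private theorem sum_split (h : W.Ok) (j : ℕ) [Fintype (W.Z (j + 1))] [Fintype (W.Z j)]
    [Fintype (W.L (j + 1))] (f : M → ℂ) :
    ∑ m : W.Z (j + 1), f m = ∑ a : W.L (j + 1), ∑ m : W.Z j, f (rep W j a + m) := by
  rw [← Fintype.sum_prod_type' (f := fun (a : W.L (j + 1)) (m : W.Z j) => f (rep W j a + m))]
  exact (Fintype.sum_equiv (split h j).symm _ _ fun p => rfl).symm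

private theorem perp_sum (h : W.Ok) (hpsi : ∀ x, x ≠ 0 → psi x ≠ 1) (j : ℕ) [Fintype (W.Z j)]
    (b : W.Fs) :
    ∑ m : W.Z j, psi (W.P m (W.c b)) =
      open Classical in if W.Perp j b then (Nat.card (W.Z j) : ℂ) else 0 := by
  classical
  split_ifs with h0
  · have : ∀ m : W.Z j, psi (W.P m (W.c b)) = 1 := fun m => by
      rw [h0.2 m m.2, AddChar.map_zero_eq_one]
    simp [this]
  · unfold Perp at h0
    push Not at h0
    obtain ⟨m0, hm0, hb0⟩ := h0 b.2
    have h1 := hpsi _ hb0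
    have h2 : ∑ m : W.Z j, psi (W.P m (W.c b)) =
        ∑ m : W.Z j, psi (W.P ((m + ⟨m0, hm0⟩ : W.Z j) : M) (W.c b)) :=
      (Fintype.sum_equiv (Equiv.addRight (⟨m0, hm0⟩ : W.Z j)) _ _ (fun _ => rfl)).symm
    have h3 : ∑ m : W.Z j, psi (W.P ((m + ⟨m0, hm0⟩ : W.Z j) : M) (W.c b)) =
        psi (W.P m0 (W.c b)) * ∑ m : W.Z j, psi (W.P m (W.c b)) := by
      rw [Finset.mul_sum]
      refine Finset.sum_congr rfl fun m _ => ?_
      rw [AddSubgroup.coe_add, h.addl j _ m.2 _ hm0 _ (cmem h b.2), AddChar.map_add_eq_mul,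
        mul_comm]
    rw [h3] at h2
    have h4 : (psi (W.P m0 (W.c b)) - 1) * ∑ m : W.Z j, psi (W.P m (W.c b)) = 0 := by
      rw [sub_mul, one_mul, ← h2, sub_self]
    exact (mul_eq_zero.1 h4).resolve_left (sub_ne_zero.2 h1)

/-- The contribution of one `a` not in `Kp` (the fibre sum). -/
private theorem fibre (h : W.Ok) (hpsi : ∀ x, x ≠ 0 → psi x ≠ 1) [Fintype W.Fs] (i : ℕ)
    [Fintype (W.Z i)] (a : W.L (i + 1)) :
    ∑ m : W.Z i, ∑ b : W.Fs, psi (W.P (rep W i a + m) (W.c b)) =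
      open Classical in
      ∑ b : W.Fs, if W.Perp i b then (Nat.card (W.Z i) : ℂ) * psi (W.Fab (i + 1) a b) else 0 := by
  classical
  rw [Finset.sum_comm]
  refine Finset.sum_congr rfl fun b _ => ?_
  have h1 : ∀ m : W.Z i, psi (W.P (rep W i a + m) (W.c b)) =
      psi (W.P (rep W i a) (W.c b)) * psi (W.P m (W.c b)) := fun m => by
    rw [h.addl (i + 1) _ (rep_mem W i a) _ (h.mono _ m.2) _ (cmem h b.2),
      AddChar.map_add_eq_mul]
  rw [Finset.sum_congr rfl fun m _ => h1 m, ← Finset.mul_sum, perp_sum psi h hpsi i b]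
  split_ifs with h0
  · rw [fab_eq h (Nat.succ_le_succ (Nat.zero_le i)) (by simpa using h0) (rep_mem W i a)
      (by simpa using rep_code W i a), mul_comm]
  · rw [mul_zero]

private theorem kap_fibre (h : W.Ok) (hpsi : ∀ x, x ≠ 0 → psi x ≠ 1) [Fintype W.Fs] (i : ℕ)
    [Fintype (W.Z i)] (a : W.L (i + 1)) (ha : a.1 ∈ W.Kp) :
    ∑ m : W.Z i, ∑ b : W.Fs, psi (W.P (rep W i a + m) (W.c b)) =
      (Nat.card (W.Z (i + 1)) : ℂ) := by
  classical
  obtain ⟨t, ht, hz, e⟩ := exists_tors h (Nat.succ_le_succ (Nat.zero_le i)) ha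
  rw [Nat.succ_eq_add_one, Nat.add_sub_cancel] at e
  have hd : rep W i a - t ∈ W.Z i := by
    refine h.low _ _ (AddSubgroup.sub_mem _ (rep_mem W i a) hz) ?_
    rw [smul_sub, rep_code, e, sub_self]
  rw [card_sum psi h hpsi i]
  refine Fintype.sum_equiv (Equiv.addLeft (⟨rep W i a - t, hd⟩ : W.Z i)) _ _ fun m => ?_
  refine Finset.sum_congr rfl fun b _ => ?_
  congr 1
  have e2 : rep W i a + m = t + ((⟨rep W i a - t, hd⟩ + m : W.Z i) : M) := by
    change rep W i a + (m : M) = t + (rep W i a - t + m)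
    rw [← add_assoc, add_sub_cancel]
  rw [e2, h.addl (i + 1) _ hz _ (h.mono _ (Subtype.coe_prop _)) _ (cmem h b.2),
    P_tors h ht (cmem h b.2), zero_add]
  rfl

theorem norm_psi (hl : l ≠ 0) (x : ZMod l) : ‖psi x‖ = 1 := by
  have : NeZero l := ⟨hl⟩
  exact AddChar.norm_apply psi x

/-- THE RECURSION, general form: `Q a b` is a class of pairs such that for every `a` outside `Kp` at
most `B` of the `b` are excluded. -/
theorem recursionQ (h : W.Ok) (hpsi : ∀ x, x ≠ 0 → psi x ≠ 1) [Fintype F] {j : ℕ} (hj : 1 ≤ j)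
    (Q : F → F → Prop) {B : ℕ}
    (hQ : ∀ a ∈ W.L j, a ∉ W.Kp → Nat.card {b : W.Fs // ¬ Q a b} ≤ B) :
    (Nat.card (W.Z (j + 1)) : ℝ) ≤ Nat.card W.Kp * Nat.card (W.Z j) +
      B * (Nat.card (W.Z j) - Nat.card W.Kp * Nat.card (W.Z (j - 1))) +
      Nat.card (W.Z (j - 1)) * (open Classical in ∑ a : F, ∑ b : F,
        if a ∈ W.L j ∧ a ∉ W.Kp ∧ Q a b ∧ W.Perp (j - 1) b then psi (W.Fab j a b) else 0).re := by
  classical
  obtain ⟨i, rfl⟩ := Nat.exists_eq_add_of_le' hj
  simp only [Nat.add_sub_cancel]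
  have := finite_Z h i
  have := finite_Z h (i + 1)
  let _ : Fintype (W.Z i) := Fintype.ofFinite _
  let _ : Fintype (W.Z (i + 1)) := Fintype.ofFinite _
  let _ : Fintype W.Fs := Fintype.ofFinite _
  set N : ℝ := (Nat.card (W.Z i) : ℝ) with hN
  have hN0 : 0 ≤ N := Nat.cast_nonneg _
  set G : F → F → ℂ := fun a b => if W.Perp i b then psi (W.Fab (i + 1) a b) else 0
    with hG
  have hG1 : ∀ a b, ‖G a b‖ ≤ 1 := by
    intro a b
    simp only [hG]
    split_ifs
    · rw [norm_psi psi h.prime.ne_zero]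
    · simp
  -- the exact formula
  have e0 : (Nat.card (W.Z (i + 1 + 1)) : ℂ) = ∑ a : W.L (i + 1),
      (if a.1 ∈ W.Kp then (Nat.card (W.Z (i + 1)) : ℂ) else
        (N : ℂ) * ∑ b : W.Fs, G a.1 b) := by
    rw [card_sum psi h hpsi (i + 1),
      sum_split h i (fun m => ∑ b : W.Fs, psi (W.P m (W.c b)))]
    refine Finset.sum_congr rfl fun a _ => ?_
    split_ifs with ha
    · exact kap_fibre psi h hpsi i a ha
    · rw [fibre psi h hpsi i a, Finset.mul_sum]
      refine Finset.sum_congr rfl fun b _ => ?_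
      simp only [hG]
      split_ifs
      · rw [hN]; push_cast; rfl
      · rw [mul_zero]
  have e1 : (Nat.card (W.Z (i + 1 + 1)) : ℝ) = ∑ a : W.L (i + 1),
      (if a.1 ∈ W.Kp then (Nat.card (W.Z (i + 1)) : ℝ) else
        N * ∑ b : W.Fs, (G a.1 b).re) := by
    have := congrArg Complex.re e0
    rw [Complex.natCast_re, Complex.re_sum] at this
    rw [this]
    refine Finset.sum_congr rfl fun a _ => ?_
    split_ifs with ha
    · exact Complex.natCast_re _
    · rw [Complex.re_ofReal_mul, Complex.re_sum]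
  -- the bound for one `a`
  have key : ∀ a : W.L (i + 1),
      (if a.1 ∈ W.Kp then (Nat.card (W.Z (i + 1)) : ℝ) else
        N * ∑ b : W.Fs, (G a.1 b).re) ≤
        (if a.1 ∈ W.Kp then (Nat.card (W.Z (i + 1)) : ℝ) else 0) +
        (if a.1 ∈ W.Kp then 0 else B * N) +
          N * ∑ b : W.Fs, (if a.1 ∉ W.Kp ∧ Q a.1 b then (G a.1 b).re else 0) := by
    intro a
    by_cases ha : a.1 ∈ W.Kp
    · simp [ha]
    · rw [if_neg ha, if_neg ha, if_neg ha, zero_add]
      have h1 : ∀ b : W.Fs, (G a.1 b).re ≤ (if Q a.1 b then 0 else 1) +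
          (if a.1 ∉ W.Kp ∧ Q a.1 b then (G a.1 b).re else 0) := by
        intro b
        by_cases hb : Q a.1 b
        · rw [if_pos hb, if_pos ⟨ha, hb⟩, zero_add]
        · rw [if_neg hb, if_neg (fun hh => hb hh.2), add_zero]
          exact (Complex.re_le_norm _).trans (hG1 _ _)
      have h2 : ∑ b : W.Fs, (if Q a.1 b then (0 : ℝ) else 1) ≤ B := by
        have h3 : ∑ b : W.Fs, (if Q a.1 b then (0 : ℝ) else 1) =
            (Nat.card {b : W.Fs // ¬ Q a.1 b} : ℝ) := by
          rw [Nat.card_eq_fintype_card, Fintype.card_subtype, Finset.card_filter]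
          push_cast
          refine Finset.sum_congr rfl fun b _ => ?_
          by_cases hb : Q a.1 b
          · simp [hb]
          · simp [hb]
        rw [h3]
        exact_mod_cast hQ a.1 a.2 ha
      have h4 := Finset.sum_le_sum fun b (_ : b ∈ (Finset.univ : Finset W.Fs)) => h1 b
      rw [Finset.sum_add_distrib] at h4
      have h5 : N * ∑ b : W.Fs, (G a.1 b).re ≤ N * (B +
          ∑ b : W.Fs, (if a.1 ∉ W.Kp ∧ Q a.1 b then (G a.1 b).re else 0)) :=
        mul_le_mul_of_nonneg_left (h4.trans (add_le_add_left h2 _)) hN0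
      rw [mul_add] at h5
      linarith
  rw [e1]
  refine (Finset.sum_le_sum fun a _ => key a).trans ?_
  rw [Finset.sum_add_distrib, Finset.sum_add_distrib]
  -- the cardinalities
  have cK : (Finset.univ.filter fun a : W.L (i + 1) => a.1 ∈ W.Kp).card = Nat.card W.Kp := by
    rw [Nat.card_eq_fintype_card, ← Fintype.card_subtype]
    refine Fintype.card_congr
      { toFun := fun x => ⟨x.1.1, x.2⟩
        invFun := fun x => ⟨⟨x.1, kp_le_L h (Nat.succ_le_succ (Nat.zero_le i)) x.2⟩, x.2⟩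
        left_inv := fun x => rfl
        right_inv := fun x => rfl }
  have c1 : ∑ a : W.L (i + 1), (if a.1 ∈ W.Kp then (Nat.card (W.Z (i + 1)) : ℝ) else 0) =
      Nat.card W.Kp * Nat.card (W.Z (i + 1)) := by
    rw [← Finset.sum_filter, Finset.sum_const, nsmul_eq_mul, cK]
  have c2 : ∑ a : W.L (i + 1), (if a.1 ∈ W.Kp then 0 else B * N) =
      B * (Nat.card (W.Z (i + 1)) - Nat.card W.Kp * N) := by
    have e2 : ∀ a : W.L (i + 1), (if a.1 ∈ W.Kp then 0 else B * N) =
        B * N - (if a.1 ∈ W.Kp then B * N else 0) := by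
      intro a
      split_ifs <;> simp
    rw [Finset.sum_congr rfl fun a _ => e2 a, Finset.sum_sub_distrib, ← Finset.sum_filter,
      Finset.sum_const, Finset.sum_const, nsmul_eq_mul, nsmul_eq_mul, cK, Finset.card_univ,
      ← Nat.card_eq_fintype_card, card_Z_succ h i, Nat.cast_mul, ← hN]
    ring
  have c3 : ∑ a : W.L (i + 1), N * ∑ b : W.Fs,
      (if a.1 ∉ W.Kp ∧ Q a.1 b then (G a.1 b).re else 0) =
      N * (∑ a : F, ∑ b : F, if a ∈ W.L (i + 1) ∧ a ∉ W.Kp ∧ Q a b ∧ W.Perp i b then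
        psi (W.Fab (i + 1) a b) else 0).re := by
    rw [← Finset.mul_sum, Complex.re_sum]
    congr 1
    have e1 : ∀ a : F, ∑ b : W.Fs, (if a ∉ W.Kp ∧ Q a b then (G a b).re else 0) =
        ∑ b : F, (if a ∉ W.Kp ∧ Q a b then (G a b).re else 0) := by
      intro a
      rw [← Finset.sum_subtype (Finset.univ.filter fun b : F => b ∈ W.Fs)
        (fun b => by simp) (fun b => (if a ∉ W.Kp ∧ Q a b then (G a b).re else 0))]
      refine Finset.sum_subset (Finset.filter_subset _ _) fun b _ hb => ?_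
      have : ¬ W.Perp i b := fun hp => hb (by simpa using hp.1)
      simp only [hG]
      rw [if_neg this, Complex.zero_re, ite_self]
    have : ∀ a : F, (∑ b : F, (if a ∈ W.L (i + 1) ∧ a ∉ W.Kp ∧ Q a b ∧ W.Perp i b then
        psi (W.Fab (i + 1) a b) else 0)).re =
        if a ∈ W.L (i + 1) then ∑ b : F, (if a ∉ W.Kp ∧ Q a b then (G a b).re else 0)
        else 0 := by
      intro a
      rw [Complex.re_sum]
      by_cases ha : a ∈ W.L (i + 1)
      · rw [if_pos ha]
        refine Finset.sum_congr rfl fun b _ => ?_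
        by_cases h1 : a ∉ W.Kp ∧ Q a b
        · rw [if_pos h1]
          simp only [hG, ha, h1.1, h1.2, not_false_eq_true, true_and]
        · rw [if_neg h1, if_neg, Complex.zero_re]
          rintro ⟨_, h2, h3, _⟩
          exact h1 ⟨h2, h3⟩
      · rw [if_neg ha]
        refine Finset.sum_eq_zero fun b _ => ?_
        rw [if_neg (fun hh => ha hh.1), Complex.zero_re]
    rw [Finset.sum_congr rfl fun a _ => this a, ← Finset.sum_filter,
      Finset.sum_congr rfl fun (a : W.L (i + 1)) _ => e1 a.1]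
    exact (Finset.sum_subtype (Finset.univ.filter fun a : F => a ∈ W.L (i + 1))
      (fun a => by simp)
      fun a => ∑ b : F, (if a ∉ W.Kp ∧ Q a b then (G a b).re else 0)).symm
  rw [c1, c2, c3]

/-- The number of the `b` in the coset span of `a` and `Kp`. -/
private theorem Ind_count (h : W.Ok) {a : F} (ha : a ∉ W.Kp) :
    Nat.card {b : W.Fs // ¬ W.Ind a b} ≤ l * Nat.card W.Kp := by
  classical
  have := h.fin
  have hp : Fact l.Prime := ⟨h.prime⟩
  have hne : NeZero l := ⟨h.prime.ne_zero⟩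
  have key : ∀ b : {b : W.Fs // ¬ W.Ind a b}, ∃ x : ZMod l, (b.1 : F) - x • a ∈ W.Kp := by
    rintro ⟨b, hb⟩
    unfold Ind at hb
    push Not at hb
    obtain ⟨x, y, hxy, hne⟩ := hb
    by_cases hy : y = 0
    · subst hy
      rw [zero_smul, add_zero] at hxy
      by_cases hx : x = 0
      · exact absurd rfl (hne hx)
      · exfalso
        apply ha
        have := W.Kp.smul_mem x⁻¹ hxy
        rwa [smul_smul, inv_mul_cancel₀ hx, one_smul] at this
    · refine ⟨-(y⁻¹ * x), ?_⟩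
      have := W.Kp.smul_mem y⁻¹ hxy
      rw [smul_add, smul_smul, smul_smul, inv_mul_cancel₀ hy, one_smul] at this
      rw [neg_smul, sub_neg_eq_add, add_comm]
      exact this
  choose x hx using key
  have hinj : Function.Injective (fun b : {b : W.Fs // ¬ W.Ind a b} =>
      (x b, (⟨(b.1 : F) - x b • a, hx b⟩ : W.Kp))) := by
    intro b b' hbb
    simp only [Prod.mk.injEq, Subtype.mk.injEq] at hbb
    obtain ⟨h1, h2⟩ := hbb
    rw [h1, sub_left_inj] at h2
    exact Subtype.ext (Subtype.ext h2)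
  refine (Nat.card_le_card_of_injective _ hinj).trans ?_
  rw [Nat.card_prod, Nat.card_zmod]

/-- THE RECURSION at the symmetric levels: all pairs with `a`, `b` outside of `Kp`. -/
theorem recursion_sym (h : W.Ok) (hpsi : ∀ x, x ≠ 0 → psi x ≠ 1) [Fintype F] {j : ℕ}
    (hj : 1 ≤ j) :
    (Nat.card (W.Z (j + 1)) : ℝ) ≤ 2 * Nat.card W.Kp * Nat.card (W.Z j) -
      Nat.card W.Kp ^ 2 * Nat.card (W.Z (j - 1)) +
      Nat.card (W.Z (j - 1)) * (open Classical in ∑ a : F, ∑ b : F,
        if a ∈ W.L j ∧ a ∉ W.Kp ∧ b ∉ W.Kp ∧ W.Perp (j - 1) b then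
          psi (W.Fab j a b) else 0).re := by
  classical
  have := h.fin
  refine (recursionQ psi h hpsi hj (fun _ b => b ∉ W.Kp) (B := Nat.card W.Kp)
    fun a _ _ => ?_).trans (le_of_eq (by ring_nf))
  refine Nat.card_le_card_of_injective
    (fun x : {b : W.Fs // ¬ ((b : F) ∉ W.Kp)} => (⟨x.1.1, not_not.1 x.2⟩ : W.Kp)) ?_
  intro x y hxy
  have e : x.1.1 = y.1.1 := congrArg (fun z : W.Kp => (z : F)) hxy
  exact Subtype.ext (Subtype.ext e)

/-- THE RECURSION at all levels: independent pairs. -/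
theorem recursion_ind (h : W.Ok) (hpsi : ∀ x, x ≠ 0 → psi x ≠ 1) [Fintype F] {j : ℕ}
    (hj : 1 ≤ j) :
    (Nat.card (W.Z (j + 1)) : ℝ) ≤ (l + 1) * Nat.card W.Kp * Nat.card (W.Z j) -
      l * Nat.card W.Kp ^ 2 * Nat.card (W.Z (j - 1)) +
      Nat.card (W.Z (j - 1)) * (open Classical in ∑ a : F, ∑ b : F,
        if a ∈ W.L j ∧ a ∉ W.Kp ∧ W.Ind a b ∧ W.Perp (j - 1) b then
          psi (W.Fab j a b) else 0).re := by
  classical
  refine (recursionQ psi h hpsi hj W.Ind (B := l * Nat.card W.Kp)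
    fun a _ ha => Ind_count h ha).trans (le_of_eq ?_)
  push_cast
  ring

end

end Tower

end Pool.Agent.SmL
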