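import Pool.Agent.Lib.SmL.G6.TowerA

/-!
# SMITH-L, block G6: independence of the `f_i`, generation of `Z j`, description of `Λ_j`

The coefficients are polynomials in `lam` with integral coefficients; `rd p` is the residue.
-/

set_option autoImplicit false

open Polynomial

namespace Pool.Agent.SmL

namespace Tower

variable {l : ℕ} {A F M M' : Type*} [CommRing A] [AddCommGroup F] [Module (ZMod l) F]
  [AddCommGroup M] [Module A M] [AddCommGroup M'] [Module A M'] {W : Tower l A F M}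
  {W' : Tower l A F M'}

/-- `l` is a multiple of `lam` on `M`. -/
def LDiv (W : Tower l A F M) : Prop :=
  ∃ p : ℤ[X], ∀ m : M, (l : ℕ) • m = W.lam • (aeval W.lam p • m)

/-- The residue of a coefficient. -/
def rd (l : ℕ) (p : ℤ[X]) : ZMod l := (p.coeff 0 : ℤ)

/-- The value of a coefficient. -/
noncomputable def ap (W : Tower l A F M) (p : ℤ[X]) : A := aeval W.lam p

theorem ap_smul (W : Tower l A F M) (p : ℤ[X]) (m : M) :
    W.ap p • m = (p.coeff 0 : ℤ) • m + W.lam • (W.ap p.divX • m) := by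
  conv_lhs => rw [← Polynomial.divX_mul_X_add p]
  rw [ap, ap, map_add, map_mul, aeval_X, aeval_C, add_smul, mul_comm, mul_smul, add_comm]
  congr 1
  rw [eq_intCast, Int.cast_smul_eq_zsmul]

theorem ap_add (W : Tower l A F M) (p q : ℤ[X]) : W.ap (p + q) = W.ap p + W.ap q := map_add _ _ _

theorem ap_mul (W : Tower l A F M) (p q : ℤ[X]) : W.ap (p * q) = W.ap p * W.ap q := map_mul _ _ _

theorem ap_X (W : Tower l A F M) : W.ap X = W.lam := aeval_X _

theorem ap_Xpow (W : Tower l A F M) (n : ℕ) : W.ap (X ^ n) = W.lam ^ n := by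
  rw [ap, map_pow, aeval_X]

theorem ap_C (W : Tower l A F M) (n : ℤ) (m : M) : W.ap (C n) • m = n • m := by
  rw [ap, aeval_C, eq_intCast, Int.cast_smul_eq_zsmul]

theorem rd_natC (n : ℕ) : rd l (C (n : ℤ)) = (n : ZMod l) := by
  rw [rd, coeff_C_zero]; simp

/-- A subgroup stable under `lam` is stable under the coefficients. -/
theorem ap_mem (W : Tower l A F M) {H : AddSubgroup M} (hH : ∀ m ∈ H, W.lam • m ∈ H) (p : ℤ[X])
    {m : M} (hm : m ∈ H) : W.ap p • m ∈ H := by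
  induction p using Polynomial.induction_on' with
  | add p q hp hq =>
    rw [ap_add, add_smul]
    exact H.add_mem hp hq
  | monomial n a =>
    rw [← C_mul_X_pow_eq_monomial, ap_mul, mul_smul, ap_C, ap_Xpow]
    refine H.zsmul_mem ?_ a
    induction n with
    | zero => simpa using hm
    | succ n ih =>
      rw [pow_succ', mul_smul]
      exact hH _ ih

theorem Zap (h : W.Ok) {j : ℕ} {m : M} (hm : m ∈ W.Z j) (p : ℤ[X]) : W.ap p • m ∈ W.Z j :=
  ap_mem W (h.smul j) p hm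

theorem Tap (h : W.Ok) {t : M} (ht : t ∈ W.T) (p : ℤ[X]) : W.ap p • t ∈ W.T :=
  ap_mem W h.tsmul p ht

theorem P_zsmul (h : W.Ok) {j : ℕ} {m : M} (hm : m ∈ W.Z j) {b : M} (hb : b ∈ W.Z 1) (n : ℤ) :
    W.P (n • m) b = (n : ZMod l) * W.P m b := by
  obtain ⟨k, rfl | rfl⟩ := n.eq_nat_or_neg
  · rw [natCast_zsmul, P_nsmul h hm hb]; simp
  · rw [neg_smul, natCast_zsmul, P_neg h (AddSubgroup.nsmul_mem _ hm k) hb, P_nsmul h hm hb]
    simp

theorem P_ap (h : W.Ok) {j : ℕ} {m : M} (hm : m ∈ W.Z j) {b : M} (hb : b ∈ W.Z 1) (p : ℤ[X]) :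
    W.P (W.ap p • m) b = rd l p * W.P m b := by
  have h1 : W.ap p.divX • m ∈ W.Z (j + 1) := h.mono _ (Zap h hm _)
  rw [ap_smul, h.addl j _ (AddSubgroup.zsmul_mem _ hm _) _ (dbl_mem h h1) _ hb, P_zsmul h hm hb,
    P_dbl h h1 hb, add_zero, rd]

/-- A coefficient with residue zero is a multiple of `lam`. -/
theorem ap_of_rd (hL : LDiv W) {p : ℤ[X]} (hp : rd l p = 0) :
    ∃ q : ℤ[X], ∀ m : M, W.ap p • m = W.lam • (W.ap q • m) := by
  obtain ⟨p0, hp0⟩ := hL
  rw [rd, ZMod.intCast_zmod_eq_zero_iff_dvd] at hp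
  obtain ⟨c, hc⟩ := hp
  refine ⟨p0 * C c + p.divX, fun m => ?_⟩
  rw [ap_smul, hc, ap_add, add_smul, smul_add, ap_mul, mul_smul (W.ap p0), ap_C]
  congr 1
  rw [mul_smul, natCast_zsmul, hp0 (c • m)]
  rfl

theorem zval (hl : l ≠ 0) (x : ZMod l) : ((x.val : ℕ) : ZMod l) = x := by
  have : NeZero l := ⟨hl⟩
  exact ZMod.natCast_zmod_val x

theorem zvalsmul (hl : l ≠ 0) {F : Type*} [AddCommGroup F] [Module (ZMod l) F] (x : ZMod l)
    (a : F) : x.val • a = x • a := by
  rw [← Nat.cast_smul_eq_nsmul (ZMod l), zval hl]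

/-- `c` of a linear combination. -/
theorem c_sum (W : Tower l A F M) (hl : l ≠ 0) {r : ℕ} (x : Fin r → ZMod l) (cc : Fin r → F) :
    W.c (∑ i, x i • cc i) = ∑ i, (x i).val • W.c (cc i) := by
  rw [map_sum]
  refine Finset.sum_congr rfl fun i _ => ?_
  rw [← zvalsmul hl, map_nsmul]

theorem c_smul (W : Tower l A F M) (hl : l ≠ 0) (x : ZMod l) (a : F) :
    W.c (x • a) = x.val • W.c a := by
  rw [← zvalsmul hl, map_nsmul]

/-- A coefficient acts on the codes through its residue. -/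
theorem ap_c (h : W.Ok) (p : ℤ[X]) (a : F) : W.ap p • W.c a = W.c (rd l p • a) := by
  have hl := h.prime.ne_zero
  rw [ap_smul, smul_comm W.lam, c_two h, smul_zero, add_zero, ← map_zsmul, rd]
  congr 1
  rw [Int.cast_smul_eq_zsmul]

/-- Independence of the `f_i` with `j(i) < k`. -/
theorem f_indep (h : W.Ok) {k r : ℕ} {cc : Fin r → F} (had : Adapted W.Fs W.L W.Kp k cc)
    {jl : Fin r → ℕ} (h1 : ∀ i, 1 ≤ jl i) (hmax : ∀ i, jl i < k → cc i ∉ W.L (jl i + 1))
    {f : Fin r → F → ZMod l} (hf : ∀ i, jl i < k → (cc i, f i) ∈ W.Lam (jl i))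
    (x : Fin r → ZMod l) (hx : ∀ i, x i ≠ 0 → jl i < k)
    (h0 : ∀ d ∈ W.Fs, ∑ i, x i * f i d = 0) : x = 0 := by
  classical
  have hl := h.prime.ne_zero
  by_contra hne
  obtain ⟨i0, hi0⟩ : ∃ i, x i ≠ 0 := by
    by_contra hall
    push Not at hall
    exact hne (funext hall)
  obtain ⟨im, him, hmx⟩ := Finset.exists_max_image (Finset.univ.filter fun i => x i ≠ 0) jl
    ⟨i0, by simpa using hi0⟩
  have him' : x im ≠ 0 := by simpa using him
  have hmx' : ∀ i, x i ≠ 0 → jl i ≤ jl im := fun i hi => hmx i (by simpa using hi)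
  have hJ : jl im < k := hx im him'
  -- the chosen cocycles
  have hm : ∀ i, ∃ m ∈ W.Z (jl i), x i ≠ 0 → W.lam ^ (jl i - 1) • m = W.c (cc i) ∧
      f i = W.ev m := by
    intro i
    by_cases hi : x i = 0
    · exact ⟨0, AddSubgroup.zero_mem _, fun hh => absurd hi hh⟩
    · obtain ⟨m, hm, e, e'⟩ := hf i (hx i hi)
      exact ⟨m, hm, fun _ => ⟨e, e'⟩⟩
  choose m hm hm' using hm
  have hmem : ∀ i ∈ (Finset.univ : Finset (Fin r)), (x i).val • m i ∈ W.Z (jl im) := by
    intro i _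
    by_cases hi : x i = 0
    · rw [hi]; simp
    · exact AddSubgroup.nsmul_mem _ (Zmono h (hmx' i hi) (hm i)) _
  set J := jl im with hJdef
  have hJ1 : 1 ≤ J := h1 im
  have hL : ((∑ i, (if jl i = J then x i else 0) • cc i, (0 : F → ZMod l)) :
      F × (F → ZMod l)) ∈ W.Lam J := by
    refine ⟨∑ i, (x i).val • m i, AddSubgroup.sum_mem _ hmem, ?_, ?_⟩
    · rw [c_sum W hl, Finset.smul_sum]
      refine Finset.sum_congr rfl fun i _ => ?_
      rw [smul_comm]
      by_cases hi : x i = 0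
      · simp [hi]
      · rcases (hmx' i hi).lt_or_eq with hlt | heq
        · rw [if_neg hlt.ne, ZMod.val_zero, zero_smul]
          obtain ⟨e, he⟩ := Nat.exists_eq_add_of_le (Nat.le_sub_one_of_lt hlt)
          rw [he, add_comm, pow_add, mul_smul, h.lev _ _ (hm i), smul_zero, smul_zero]
        · rw [if_pos heq, ← (hm' i hi).1, heq]
    · symm
      funext d
      by_cases hd : d ∈ W.Fs
      · rw [ev_of_mem hd, P_sum h _ _ hmem (cmem h hd)]
        change _ = (0 : ZMod l)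
        rw [← h0 d hd]
        refine Finset.sum_congr rfl fun i _ => ?_
        rw [P_nsmul h (hm i) (cmem h hd), zval hl]
        by_cases hi : x i = 0
        · simp [hi]
        · rw [(hm' i hi).2, ev_of_mem hd]
      · rw [ev_of_notMem hd]; rfl
  rw [lam_zero_right h hJ1] at hL
  have hc := had.adapt (J + 1) (Nat.succ_le_succ (Nat.zero_le _)) hJ _ hL im
    (by rw [if_pos rfl]; exact him')
  exact hmax im hJ hc

/-- GENERATION of `Z j`. -/
theorem gen (h : W.Ok) (hL : LDiv W) {k r : ℕ} {cc : Fin r → F}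
    (hspan : ∀ a ∈ W.Fs, ∃ x : Fin r → ZMod l, a - ∑ i, x i • cc i ∈ W.Kp)
    {jl : Fin r → ℕ} {Psi : Fin r → M} (hP : ∀ i, Psi i ∈ W.Z (jl i))
    (hc : ∀ i, W.lam ^ (jl i - 1) • Psi i = W.c (cc i))
    (hind : ∀ x : Fin r → ZMod l, (∀ i, x i ≠ 0 → jl i < k) →
      (∀ d ∈ W.Fs, ∑ i, x i * W.P (Psi i) (W.c d) = 0) → x = 0)
    {j : ℕ} (hj : 1 ≤ j) (hjk : j ≤ k) (m : M) (hm : m ∈ W.Z j) :
    ∃ t ∈ W.T, t ∈ W.Z j ∧ ∃ n : Fin r → ℤ[X],
      m = t + ∑ i, W.ap (n i) • (W.lam ^ (jl i - j) • Psi i) := by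
  classical
  have hl := h.prime.ne_zero
  -- the generators are in `Z j`
  have hg : ∀ e i, W.lam ^ (jl i - e) • Psi i ∈ W.Z e := by
    intro e i
    rcases le_total e (jl i) with hle | hle
    · exact pow_mem h _ (by rw [Nat.add_sub_cancel' hle]; exact hP i)
    · rw [Nat.sub_eq_zero_of_le hle, pow_zero, one_smul]
      exact Zmono h hle (hP i)
  suffices hs : ∃ t ∈ W.T, ∃ n : Fin r → ℤ[X],
      m = t + ∑ i, W.ap (n i) • (W.lam ^ (jl i - j) • Psi i) by
    obtain ⟨t, ht, n, e⟩ := hs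
    refine ⟨t, ht, ?_, n, e⟩
    have : t = m - ∑ i, W.ap (n i) • (W.lam ^ (jl i - j) • Psi i) := by
      rw [e, add_sub_cancel_right]
    rw [this]
    exact AddSubgroup.sub_mem _ hm (AddSubgroup.sum_mem _ fun i _ => Zap h (hg j i) _)
  induction j, hj using Nat.le_induction generalizing m with
  | base =>
    obtain ⟨a, ha, rfl⟩ := (h.crange m).1 hm
    obtain ⟨x, hx⟩ := hspan a ha
    refine ⟨W.c (a - ∑ i, x i • cc i), (W.mem_Kp _).1 hx, fun i => C ((x i).val : ℤ), ?_⟩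
    rw [map_sub, c_sum W hl]
    simp only [hc, ap_C, natCast_zsmul]
    abel
  | succ j hj ih =>
    have hjk' : j ≤ k := Nat.le_of_succ_le hjk
    obtain ⟨t, ht, n, e⟩ := ih hjk' _ (dbl_mem h hm)
    have htz : t ∈ W.Z j := by
      have : t = W.lam • m - ∑ i, W.ap (n i) • (W.lam ^ (jl i - j) • Psi i) := by
        rw [e, add_sub_cancel_right]
      rw [this]
      exact AddSubgroup.sub_mem _ (dbl_mem h hm)
        (AddSubgroup.sum_mem _ fun i _ => Zap h (hg j i) _)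
    -- the residues of the coefficients
    have hpar : (fun i => if jl i ≤ j then rd l (n i) else 0) = 0 := by
      refine hind _ (fun i hi => ?_) fun d hd => ?_
      · by_contra hcon
        apply hi
        rw [if_neg]
        intro hh
        exact hcon (lt_of_le_of_lt hh hjk)
      · have h2 := P_dbl h hm (cmem h hd)
        rw [e, h.addl j _ htz _ (AddSubgroup.sum_mem _ fun i _ =>
          Zap h (hg j i) _) _ (cmem h hd), P_tors h ht (cmem h hd), zero_add,
          P_sum h _ _ (fun i _ => Zap h (hg j i) _) (cmem h hd)] at h2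
        refine Eq.trans ?_ h2
        refine Finset.sum_congr rfl fun i _ => ?_
        rw [P_ap h (hg j i) (cmem h hd)]
        split_ifs with hle
        · rw [Nat.sub_eq_zero_of_le hle, pow_zero, one_smul]
        · push Not at hle
          rw [zero_mul]
          have : W.lam ^ (jl i - j) • Psi i = W.lam • (W.lam ^ (jl i - (j + 1)) • Psi i) := by
            rw [smul_smul, ← pow_succ']
            congr 2
            omega
          rw [this, P_dbl h (hg (j + 1) i) (cmem h hd), mul_zero]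
    have heven : ∀ i, jl i ≤ j → ∃ q : ℤ[X], ∀ m : M,
        W.ap (n i) • m = W.lam • (W.ap q • m) := by
      intro i hi
      have := congrFun hpar i
      simp only [if_pos hi, Pi.zero_apply] at this
      exact ap_of_rd hL this
    obtain ⟨t', ht', et'⟩ := h.tdiv t ht
    have ht'z : t' ∈ W.Z (j + 1) := by
      refine h.tlev _ _ ht' ?_
      rw [pow_succ, mul_smul, et']
      exact h.lev _ _ htz
    have hn' : ∀ i, ∃ e : ℤ[X], W.ap (n i) • (W.lam ^ (jl i - j) • Psi i) =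
        W.lam • (W.ap e • (W.lam ^ (jl i - (j + 1)) • Psi i)) := by
      intro i
      by_cases hi : jl i ≤ j
      · obtain ⟨e, he⟩ := heven i hi
        refine ⟨e, ?_⟩
        rw [Nat.sub_eq_zero_of_le hi, Nat.sub_eq_zero_of_le (by omega), he]
      · push Not at hi
        refine ⟨n i, ?_⟩
        have : W.lam ^ (jl i - j) = W.lam * W.lam ^ (jl i - (j + 1)) := by
          rw [← pow_succ']
          congr 1
          omega
        rw [this, mul_smul, smul_comm]
    choose n' hn' using hn'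
    set m0 : M := t' + ∑ i, W.ap (n' i) • (W.lam ^ (jl i - (j + 1)) • Psi i) with hm0
    have hm0z : m0 ∈ W.Z (j + 1) := AddSubgroup.add_mem _ ht'z
      (AddSubgroup.sum_mem _ fun i _ => Zap h (hg (j + 1) i) _)
    have h2m0 : W.lam • m0 = W.lam • m := by
      rw [e, hm0, smul_add, et', Finset.smul_sum]
      congr 1
      exact (Finset.sum_congr rfl fun i _ => hn' i).symm
    have hdiff : m - m0 ∈ W.Z 1 := by
      refine low_mem h (AddSubgroup.sub_mem _ hm hm0z) ?_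
      rw [pow_one, smul_sub, h2m0, sub_self]
    obtain ⟨a, haF, ha⟩ := (h.crange _).1 hdiff
    obtain ⟨x, hx⟩ := hspan a haF
    have hexp : ∀ i, ∃ e : ℤ[X], (x i).val • W.c (cc i) =
        W.ap e • (W.lam ^ (jl i - (j + 1)) • Psi i) := by
      intro i
      refine ⟨C ((x i).val : ℤ) * X ^ ((jl i - 1) - (jl i - (j + 1))), ?_⟩
      rw [← hc i, ap_mul, mul_smul, ap_C, ap_Xpow, smul_smul (W.lam ^ _), ← pow_add,
        natCast_zsmul]
      congr 3
      omega
    choose e1 he1 using hexp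
    refine ⟨t' + W.c (a - ∑ i, x i • cc i), AddSubgroup.add_mem _ ht' ((W.mem_Kp _).1 hx),
      fun i => n' i + e1 i, ?_⟩
    have hm' : m = m0 + W.c a := by rw [ha]; abel
    rw [hm', hm0, map_sub, c_sum W hl, Finset.sum_congr rfl fun i _ => he1 i]
    simp only [ap_add, add_smul, Finset.sum_add_distrib]
    abel

/-- Explicit description of `Λ_j`, `j < k`. -/
theorem lam_iff (h : W.Ok) (hL : LDiv W) {k r : ℕ} {cc : Fin r → F}
    (hspan : ∀ a ∈ W.Fs, ∃ x : Fin r → ZMod l, a - ∑ i, x i • cc i ∈ W.Kp)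
    {jl : Fin r → ℕ} {Psi : Fin r → M} (hP : ∀ i, Psi i ∈ W.Z (jl i))
    (hc : ∀ i, W.lam ^ (jl i - 1) • Psi i = W.c (cc i))
    (hind : ∀ x : Fin r → ZMod l, (∀ i, x i ≠ 0 → jl i < k) →
      (∀ d ∈ W.Fs, ∑ i, x i * W.P (Psi i) (W.c d) = 0) → x = 0)
    {j : ℕ} (hj : 1 ≤ j) (hjk : j < k) (p : F × (F → ZMod l)) :
    p ∈ W.Lam j ↔ ∃ kap ∈ W.Kp, ∃ x y : Fin r → ZMod l, (∀ i, jl i < j → x i = 0) ∧
      (∀ i, j < jl i → y i = 0) ∧ (∀ i, jl i = j → x i = y i) ∧
      p.1 = kap + ∑ i, x i • cc i ∧ p.2 = ∑ i, y i • W.ev (Psi i) := by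
  classical
  have hl := h.prime.ne_zero
  have hg : ∀ e i, W.lam ^ (jl i - e) • Psi i ∈ W.Z e := by
    intro e i
    rcases le_total e (jl i) with hle | hle
    · exact pow_mem h _ (by rw [Nat.add_sub_cancel' hle]; exact hP i)
    · rw [Nat.sub_eq_zero_of_le hle, pow_zero, one_smul]
      exact Zmono h hle (hP i)
  -- `lam ^ (j-1)` times a generator
  have hpw : ∀ i, W.lam ^ (j - 1) • (W.lam ^ (jl i - j) • Psi i) =
      if jl i < j then 0 else W.c (cc i) := by
    intro i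
    split_ifs with hi
    · rw [Nat.sub_eq_zero_of_le hi.le, pow_zero, one_smul]
      obtain ⟨e, he⟩ := Nat.exists_eq_add_of_le (Nat.le_sub_one_of_lt hi)
      rw [he, add_comm, pow_add, mul_smul, h.lev _ _ (hP i), smul_zero]
    · push Not at hi
      rw [← hc i, smul_smul, ← pow_add]
      congr 2
      omega
  -- the function of a combination of the generators
  have hev : ∀ (t : M) (_ : t ∈ W.T) (_ : t ∈ W.Z j) (n : Fin r → ℤ[X]),
      W.ev (t + ∑ i, W.ap (n i) • (W.lam ^ (jl i - j) • Psi i)) =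
        ∑ i, (if j < jl i then 0 else rd l (n i)) • W.ev (Psi i) := by
    intro t ht htz n
    funext d
    rw [Finset.sum_apply]
    by_cases hd : d ∈ W.Fs
    · rw [ev_of_mem hd, h.addl j _ htz _ (AddSubgroup.sum_mem _ fun i _ =>
        Zap h (hg j i) _) _ (cmem h hd), P_tors h ht (cmem h hd), zero_add,
        P_sum h _ _ (fun i _ => Zap h (hg j i) _) (cmem h hd)]
      refine Finset.sum_congr rfl fun i _ => ?_
      rw [P_ap h (hg j i) (cmem h hd), Pi.smul_apply, ev_of_mem hd, smul_eq_mul]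
      split_ifs with hi
      · have : W.lam ^ (jl i - j) • Psi i = W.lam • (W.lam ^ (jl i - (j + 1)) • Psi i) := by
          rw [smul_smul, ← pow_succ']
          congr 2
          omega
        rw [this, P_dbl h (hg (j + 1) i) (cmem h hd), mul_zero, zero_mul]
      · rw [Nat.sub_eq_zero_of_le (not_lt.1 hi), pow_zero, one_smul]
    · rw [ev_of_notMem hd]
      symm
      refine Finset.sum_eq_zero fun i _ => ?_
      rw [Pi.smul_apply, ev_of_notMem hd, smul_zero]
  constructor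
  · rintro ⟨m, hm, e, e'⟩
    obtain ⟨t, ht, htz, n, en⟩ := gen h hL hspan hP hc hind hj hjk.le m hm
    obtain ⟨kap, _, hkap⟩ := exists_code h hj htz
    refine ⟨kap, ?_, fun i => if jl i < j then 0 else rd l (n i),
      fun i => if j < jl i then 0 else rd l (n i), fun i hi => if_pos hi,
      fun i hi => if_pos hi, ?_, ?_, ?_⟩
    · rw [W.mem_Kp, ← hkap, ← ap_Xpow]
      exact Tap h ht _
    · intro i hi
      simp only [hi, lt_irrefl, if_false]
    · apply h.cinj
      rw [← e, en, smul_add, hkap, map_add, Finset.smul_sum, map_sum]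
      congr 1
      refine Finset.sum_congr rfl fun i _ => ?_
      beta_reduce
      rw [smul_comm, hpw i]
      split_ifs with hi
      · simp
      · rw [ap_c h]
    · rw [e', en, hev t ht htz n]
  · rintro ⟨kap, hkap, x, y, hx, hy, hxy, e1, e2⟩
    obtain ⟨t, ht, htz, et⟩ := exists_tors h hj hkap
    set z : Fin r → ZMod l := fun i => if jl i < j then y i else x i with hz
    have hC : ∀ i (m : M), (z i).val • m = W.ap (C ((z i).val : ℤ)) • m := by
      intro i m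
      rw [ap_C, natCast_zsmul]
    refine ⟨t + ∑ i, W.ap (C ((z i).val : ℤ)) • (W.lam ^ (jl i - j) • Psi i), ?_, ?_, ?_⟩
    · exact AddSubgroup.add_mem _ htz
        (AddSubgroup.sum_mem _ fun i _ => Zap h (hg j i) _)
    · rw [smul_add, et, e1, map_add, c_sum W hl, Finset.smul_sum]
      congr 1
      refine Finset.sum_congr rfl fun i _ => ?_
      rw [smul_comm, hpw i]
      split_ifs with hi
      · rw [hx i hi]; simp
      · rw [← hC]
        simp only [hz, if_neg hi]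
    · rw [e2, hev t ht htz]
      refine Finset.sum_congr rfl fun i _ => ?_
      congr 1
      rw [rd_natC, zval hl]
      rcases lt_trichotomy (jl i) j with hi | hi | hi
      · simp only [hz, if_pos hi, if_neg (not_lt.2 hi.le)]
      · simp only [hz, hi, lt_irrefl, if_false, hxy i hi]
      · rw [if_pos hi, hy i hi]

/-- CONVERSE (used at the last vertex): two towers with the same `Fs`, `Kp`, `c_i`, `j(i)`, `f_i`
(`f_i`, `j(i) < k`, independent) have the same `Λ_j`, `j < k`. -/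
theorem lam_same (h : W.Ok) (hL : LDiv W) (h' : W'.Ok) (hL' : LDiv W') (hF : W.Fs = W'.Fs)
    (hK : W.Kp = W'.Kp) {k r : ℕ}
    {cc : Fin r → F}
    (hspan : ∀ a ∈ W.Fs, ∃ x : Fin r → ZMod l, a - ∑ i, x i • cc i ∈ W.Kp)
    {jl : Fin r → ℕ} {f : Fin r → F → ZMod l}
    (hind : ∀ x : Fin r → ZMod l, (∀ i, x i ≠ 0 → jl i < k) →
      (∀ d ∈ W.Fs, ∑ i, x i * f i d = 0) → x = 0)
    {Psi : Fin r → M} (hP : ∀ i, Psi i ∈ W.Z (jl i))
    (hc : ∀ i, W.lam ^ (jl i - 1) • Psi i = W.c (cc i))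
    (hf : ∀ i, jl i < k → ∀ d ∈ W.Fs, W.P (Psi i) (W.c d) = f i d)
    {Psi' : Fin r → M'} (hP' : ∀ i, Psi' i ∈ W'.Z (jl i))
    (hc' : ∀ i, W'.lam ^ (jl i - 1) • Psi' i = W'.c (cc i))
    (hf' : ∀ i, jl i < k → ∀ d ∈ W'.Fs, W'.P (Psi' i) (W'.c d) = f i d)
    {j : ℕ} (hj : 1 ≤ j) (hjk : j < k) : W.Lam j = W'.Lam j := by
  have hi : ∀ x : Fin r → ZMod l, (∀ i, x i ≠ 0 → jl i < k) →
      (∀ d ∈ W.Fs, ∑ i, x i * W.P (Psi i) (W.c d) = 0) → x = 0 := by
    intro x hx h0
    refine hind x hx fun d hd => ?_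
    rw [← h0 d hd]
    refine Finset.sum_congr rfl fun i _ => ?_
    by_cases hi : x i = 0
    · rw [hi]; simp
    · rw [hf i (hx i hi) d hd]
  have hi' : ∀ x : Fin r → ZMod l, (∀ i, x i ≠ 0 → jl i < k) →
      (∀ d ∈ W'.Fs, ∑ i, x i * W'.P (Psi' i) (W'.c d) = 0) → x = 0 := by
    intro x hx h0
    refine hind x hx fun d hd => ?_
    rw [← h0 d (hF ▸ hd)]
    refine Finset.sum_congr rfl fun i _ => ?_
    by_cases hi : x i = 0
    · rw [hi]; simp
    · rw [hf' i (hx i hi) d (hF ▸ hd)]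
  have hev : ∀ i, jl i < k → W.ev (Psi i) = W'.ev (Psi' i) := by
    intro i hi
    funext d
    by_cases hd : d ∈ W.Fs
    · rw [ev_of_mem hd, ev_of_mem (hF ▸ hd), hf i hi d hd, hf' i hi d (hF ▸ hd)]
    · rw [ev_of_notMem hd, ev_of_notMem (hF ▸ hd)]
  have hsum : ∀ y : Fin r → ZMod l, (∀ i, j < jl i → y i = 0) →
      ∑ i, y i • W.ev (Psi i) = ∑ i, y i • W'.ev (Psi' i) := by
    intro y hy
    refine Finset.sum_congr rfl fun i _ => ?_
    by_cases hi : j < jl i
    · rw [hy i hi]; simp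
    · rw [hev i (lt_of_le_of_lt (not_lt.1 hi) hjk)]
  ext p
  rw [lam_iff h hL hspan hP hc hi hj hjk p,
    lam_iff h' hL' (by rw [← hK, ← hF]; exact hspan) hP' hc' hi' hj hjk p, ← hK]
  constructor
  · rintro ⟨kap, hkap, x, y, hx, hy, hxy, e1, e2⟩
    exact ⟨kap, hkap, x, y, hx, hy, hxy, e1, by rw [e2, hsum y hy]⟩
  · rintro ⟨kap, hkap, x, y, hx, hy, hxy, e1, e2⟩
    exact ⟨kap, hkap, x, y, hx, hy, hxy, e1, by rw [e2, hsum y hy]⟩

/-- Existence of the generators `Psi^i` with prescribed `f_i`. -/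
theorem exists_Psi {k r : ℕ} {cc : Fin r → F} {jl : Fin r → ℕ}
    {f : Fin r → F → ZMod l} (hf : ∀ i, jl i < k → (cc i, f i) ∈ W.Lam (jl i))
    (hk : ∀ i, ¬ jl i < k → cc i ∈ W.L (jl i)) :
    ∃ Psi : Fin r → M, (∀ i, Psi i ∈ W.Z (jl i)) ∧
      (∀ i, W.lam ^ (jl i - 1) • Psi i = W.c (cc i)) ∧
      ∀ i, jl i < k → ∀ d ∈ W.Fs, W.P (Psi i) (W.c d) = f i d := by
  have : ∀ i, ∃ m ∈ W.Z (jl i), W.lam ^ (jl i - 1) • m = W.c (cc i) ∧
      (jl i < k → ∀ d ∈ W.Fs, W.P m (W.c d) = f i d) := by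
    intro i
    by_cases hi : jl i < k
    · obtain ⟨m, hm, e, e'⟩ := hf i hi
      refine ⟨m, hm, e, fun _ d hd => ?_⟩
      rw [← ev_of_mem hd]
      exact (congrFun e' d).symm
    · obtain ⟨m, hm, e⟩ := (W.mem_L _ _).1 (hk i hi)
      exact ⟨m, hm, e, fun hh => absurd hh hi⟩
  choose Psi h1 h2 h3 using this
  exact ⟨Psi, h1, h2, h3⟩

/-- Existence of the level function `j(i)` and of the `f_i`. -/
theorem exists_jl (h : W.Ok) {k r : ℕ} (hk : 1 ≤ k) {cc : Fin r → F} (hcc : ∀ i, cc i ∈ W.Fs) :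
    ∃ (jl : Fin r → ℕ) (f : Fin r → F → ZMod l), (∀ i, 1 ≤ jl i) ∧ (∀ i, jl i ≤ k) ∧
      (∀ i, cc i ∈ W.L (jl i)) ∧ (∀ i, jl i < k → cc i ∉ W.L (jl i + 1)) ∧
      (∀ i, jl i < k → (cc i, f i) ∈ W.Lam (jl i)) ∧ (∀ i, cc i ∈ W.L k → jl i = k) := by
  classical
  have : ∀ i, ∃ (j : ℕ) (g : F → ZMod l), 1 ≤ j ∧ j ≤ k ∧ cc i ∈ W.L j ∧
      (j < k → cc i ∉ W.L (j + 1)) ∧ (j < k → (cc i, g) ∈ W.Lam j) ∧
      (cc i ∈ W.L k → j = k) := by
    intro i
    have hne : ((Finset.Icc 1 k).filter fun j => cc i ∈ W.L j).Nonempty :=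
      ⟨1, by simp [hk, L_one h, hcc i]⟩
    obtain ⟨j, hj, hmax⟩ := Finset.exists_max_image _ id hne
    simp only [Finset.mem_filter, Finset.mem_Icc, id] at hj hmax
    obtain ⟨g, hg⟩ := (mem_L_iff_lam (cc i)).1 hj.2
    refine ⟨j, g, hj.1.1, hj.1.2, hj.2, fun hlt hmem => ?_, fun _ => hg, fun hmem => ?_⟩
    · have := hmax (j + 1) ⟨⟨by omega, hlt⟩, hmem⟩
      omega
    · have := hmax k ⟨⟨hk, le_rfl⟩, hmem⟩
      omega
  choose jl f h1 h2 h3 h4 h5 h6 using this
  exact ⟨jl, f, h1, h2, h3, h4, h5, h6⟩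

end Tower

end Pool.Agent.SmL
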