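import Pool.Agent.Lib.SmL.G6.TowerA

/-!
# SMITH-L, block G6: adapted bases (linear algebra over `F_l`)
-/

set_option autoImplicit false

namespace Pool.Agent.SmL

variable {l : ℕ} {F : Type*} [AddCommGroup F] [Module (ZMod l) F]

/-- Size of an adapted basis. -/
theorem Adapted.card [NeZero l] {Fs : Submodule (ZMod l) F} {Lf : ℕ → Submodule (ZMod l) F}
    {K : Submodule (ZMod l) F} {k r : ℕ}
    {cc : Fin r → F} (had : Adapted Fs Lf K k cc) (hK : K ≤ Fs) :
    l ^ r * Nat.card K = Nat.card Fs := by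
  have hb : Function.Bijective (fun p : (Fin r → ZMod l) × K =>
      (⟨∑ i, p.1 i • cc i + (p.2 : F), Fs.add_mem
        (Submodule.sum_mem _ fun i _ => Fs.smul_mem _ (had.mem i)) (hK p.2.2)⟩ : Fs)) := by
    constructor
    · rintro ⟨x, u⟩ ⟨y, v⟩ hxy
      have hxy : ∑ i, x i • cc i + (u : F) = ∑ i, y i • cc i + (v : F) :=
        congrArg (fun z : Fs => (z : F)) hxy
      have h1 : ∑ i, (x - y) i • cc i ∈ K := by
        have : ∑ i, (x - y) i • cc i = (v : F) - u := by
          simp only [Pi.sub_apply, sub_smul, Finset.sum_sub_distrib]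
          rw [sub_eq_sub_iff_add_eq_add, hxy, add_comm]
        rw [this]
        exact K.sub_mem v.2 u.2
      have h2 : x = y := sub_eq_zero.1 (had.indep _ h1)
      subst h2
      simpa using hxy
    · rintro ⟨a, ha⟩
      obtain ⟨x, hx⟩ := had.span a ha
      refine ⟨(x, ⟨_, hx⟩), Subtype.ext ?_⟩
      change ∑ i, x i • cc i + (a - ∑ i, x i • cc i) = a
      abel
  rw [← Nat.card_congr (Equiv.ofBijective _ hb), Nat.card_prod, Nat.card_fun]
  simp

theorem Adapted.r_le (hl : 2 ≤ l) {Fs : Submodule (ZMod l) F} {Lf : ℕ → Submodule (ZMod l) F}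
    {K : Submodule (ZMod l) F} {k r : ℕ}
    {cc : Fin r → F} (had : Adapted Fs Lf K k cc) (hK : K ≤ Fs) [Finite F] {R : ℕ}
    (hF : Nat.card Fs ≤ 2 ^ R) : r ≤ R := by
  have : NeZero l := ⟨by omega⟩
  have h1 : 0 < Nat.card K := Nat.card_pos
  have h2 : 2 ^ r ≤ 2 ^ R := by
    calc 2 ^ r ≤ l ^ r := Nat.pow_le_pow_left hl r
      _ ≤ l ^ r * Nat.card K := Nat.le_mul_of_pos_right _ h1
      _ = Nat.card Fs := had.card hK
      _ ≤ 2 ^ R := hF
  exact (Nat.pow_le_pow_iff_right (by norm_num)).1 h2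

/-- A basis of a finite space adapted to a flag, containing a given vector. -/
private theorem flag_basis [Fact l.Prime] {V : Type*} [AddCommGroup V] [Module (ZMod l) V]
    [Finite V]
    (Lf : ℕ → Submodule (ZMod l) V) {k : ℕ} (hk : 1 ≤ k) (h1 : Lf 1 = ⊤)
    (hanti : ∀ j, 1 ≤ j → j < k → Lf (j + 1) ≤ Lf j) {a : V} (ha : a ∈ Lf k) (ha0 : a ≠ 0) :
    ∃ (r : ℕ) (b : Module.Basis (Fin r) (ZMod l) V) (la : Fin r), b la = a ∧
      ∀ j, 1 ≤ j → j ≤ k → ∀ x ∈ Lf j, ∀ i, b.repr x i ≠ 0 → b i ∈ Lf j := by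
  classical
  have key : ∀ i, i + 1 ≤ k → ∃ s : Set V, s ⊆ Lf (k - i) ∧ a ∈ s ∧
      LinearIndepOn (ZMod l) id s ∧
      ∀ j, k - i ≤ j → j ≤ k → (Lf j : Set V) ⊆ Submodule.span (ZMod l) (s ∩ Lf j) := by
    intro i
    induction i with
    | zero =>
      intro _
      have hli : LinearIndepOn (ZMod l) id ({a} : Set V) :=
        LinearIndepOn.singleton ha0
      obtain ⟨s, hs1, hs2, hs3, hs4⟩ := exists_linearIndepOn_id_extension hli
        (t := (Lf k : Set V)) (by simpa using ha)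
      refine ⟨s, by simpa using hs1, hs2 rfl, hs4, fun j hj1 hj2 => ?_⟩
      have : j = k := le_antisymm hj2 (by simpa using hj1)
      subst this
      rw [Set.inter_eq_left.2 hs1]
      exact hs3
    | succ i ih =>
      intro hi
      obtain ⟨s, hs1, has, hs2, hs3⟩ := ih (by omega)
      have hle : Lf (k - i) ≤ Lf (k - (i + 1)) := by
        have := hanti (k - (i + 1)) (by omega) (by omega)
        rwa [show k - (i + 1) + 1 = k - i by omega] at this
      obtain ⟨u, hu1, hu2, hu3, hu4⟩ := exists_linearIndepOn_id_extension hs2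
        (t := (Lf (k - (i + 1)) : Set V)) (hs1.trans hle)
      refine ⟨u, hu1, hu2 has, hu4, fun j hj1 hj2 => ?_⟩
      rcases Nat.lt_or_ge j (k - i) with hlt | hge
      · have : j = k - (i + 1) := by omega
        subst this
        rw [Set.inter_eq_left.2 hu1]
        exact hu3
      · exact (hs3 j hge hj2).trans
          (Submodule.span_mono (Set.inter_subset_inter_left _ hu2))
  obtain ⟨s, hs1, has, hs2, hs3⟩ := key (k - 1) (by omega)
  have hs3' : ∀ j, 1 ≤ j → j ≤ k → (Lf j : Set V) ⊆ Submodule.span (ZMod l) (s ∩ Lf j) :=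
    fun j hj1 hj2 => hs3 j (by omega) hj2
  have hspan : ⊤ ≤ Submodule.span (ZMod l) (Set.range (Subtype.val : s → V)) := by
    rw [Subtype.range_coe, ← h1]
    exact (hs3' 1 le_rfl hk).trans (Submodule.span_mono Set.inter_subset_left)
  let b0 : Module.Basis s (ZMod l) V := Module.Basis.mk hs2 hspan
  have hb0 : ∀ v : s, b0 v = v := fun v => by simp [b0]
  have : Finite s := Set.toFinite s
  let e : s ≃ Fin (Nat.card s) := Finite.equivFin s
  refine ⟨Nat.card s, b0.reindex e, e ⟨a, has⟩, ?_, ?_⟩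
  · rw [Module.Basis.reindex_apply, Equiv.symm_apply_apply, hb0]
  · intro j hj1 hj2 x hx i hi
    rw [Module.Basis.reindex_apply, hb0]
    rw [Module.Basis.repr_reindex_apply] at hi
    have hx' : x ∈ Submodule.span (ZMod l) (b0 '' {v : s | (v : V) ∈ Lf j}) := by
      have : b0 '' {v : s | (v : V) ∈ Lf j} = s ∩ Lf j := by
        ext v
        constructor
        · rintro ⟨w, hw, rfl⟩
          rw [hb0]
          exact ⟨w.2, hw⟩
        · rintro ⟨hv1, hv2⟩
          exact ⟨⟨v, hv1⟩, hv2, hb0 _⟩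
      rw [this]
      exact hs3' j hj1 hj2 hx
    rw [Module.Basis.mem_span_image] at hx'
    exact hx' (Finsupp.mem_support_iff.2 hi)

/-- The lifted adapted basis with `cc la = a`. -/
private theorem adapted_lift [Fact l.Prime] [Finite F] (Lf : ℕ → Submodule (ZMod l) F)
    (K : Submodule (ZMod l) F)
    {k : ℕ} (hk : 1 ≤ k) (h1 : Lf 1 = ⊤) (hanti : ∀ j, 1 ≤ j → j < k → Lf (j + 1) ≤ Lf j)
    (hK : K ≤ Lf k) {a : F} (ha : a ∈ Lf k) (ha' : a ∉ K) :
    ∃ (r : ℕ) (c0 : Fin r → F) (la : Fin r) (B : Module.Basis (Fin r) (ZMod l) (F ⧸ K)),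
      (∀ i, K.mkQ (c0 i) = B i) ∧ c0 la = a ∧
      (∀ j, 1 ≤ j → j ≤ k → K ≤ Lf j) ∧ (∀ j, 1 ≤ j → j ≤ k → Lf k ≤ Lf j) ∧
      (∀ j, 1 ≤ j → j ≤ k → ∀ x : Fin r → ZMod l, K.mkQ (∑ i, x i • c0 i) ∈ (Lf j).map K.mkQ →
        ∀ i, x i ≠ 0 → c0 i ∈ Lf j) ∧
      (∀ j, 1 ≤ j → j ≤ k → ∀ x : F, K.mkQ x ∈ (Lf j).map K.mkQ ↔ x ∈ Lf j) := by
  classical
  have hKj : ∀ j, 1 ≤ j → j ≤ k → K ≤ Lf j := by
    intro j hj1 hj2
    have : ∀ i, i + 1 ≤ k → K ≤ Lf (k - i) := by
      intro i
      induction i with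
      | zero => intro _; simpa using hK
      | succ i ih =>
        intro hi
        refine (ih (by omega)).trans ?_
        have := hanti (k - (i + 1)) (by omega) (by omega)
        rwa [show k - (i + 1) + 1 = k - i by omega] at this
    have h := this (k - j) (by omega)
    rwa [show k - (k - j) = j by omega] at h
  have hLkj : ∀ j, 1 ≤ j → j ≤ k → Lf k ≤ Lf j := by
    intro j hj1 hj2
    have : ∀ i, i + 1 ≤ k → Lf k ≤ Lf (k - i) := by
      intro i
      induction i with
      | zero => intro _; simp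
      | succ i ih =>
        intro hi
        refine (ih (by omega)).trans ?_
        have := hanti (k - (i + 1)) (by omega) (by omega)
        rwa [show k - (i + 1) + 1 = k - i by omega] at this
    have h := this (k - j) (by omega)
    rwa [show k - (k - j) = j by omega] at h
  -- the quotient
  have : Finite (F ⧸ K) := Finite.of_surjective _ (Submodule.mkQ_surjective K)
  have hmem : ∀ j, 1 ≤ j → j ≤ k → ∀ x : F, K.mkQ x ∈ (Lf j).map K.mkQ ↔ x ∈ Lf j := by
    intro j hj1 hj2 x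
    constructor
    · rintro ⟨y, hy, e⟩
      have h2 : x - y ∈ K := by
        rw [← Submodule.Quotient.mk_eq_zero K, Submodule.Quotient.mk_sub, sub_eq_zero]
        exact e.symm
      have h3 := (Lf j).add_mem (hKj j hj1 hj2 h2) hy
      rwa [sub_add_cancel] at h3
    · intro hx
      exact ⟨x, hx, rfl⟩
  have hz : ∀ x : F, K.mkQ x = 0 ↔ x ∈ K := fun x => Submodule.Quotient.mk_eq_zero K
  obtain ⟨r, B, la, hla, hB⟩ := flag_basis (fun j => (Lf j).map K.mkQ) hk
    (by simp [h1, Submodule.range_mkQ]) (fun j hj1 hj2 => Submodule.map_mono (hanti j hj1 hj2))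
    (a := K.mkQ a) ⟨a, ha, rfl⟩ (fun h0 => ha' ((hz a).1 h0))
  -- lifts
  have hlift : ∀ i, ∃ c : F, K.mkQ c = B i ∧ (i = la → c = a) := by
    intro i
    by_cases hi : i = la
    · subst hi
      exact ⟨a, hla.symm, fun _ => rfl⟩
    · obtain ⟨c, hc⟩ := Submodule.mkQ_surjective K (B i)
      exact ⟨c, hc, fun h => absurd h hi⟩
  choose c0 hc0 hc0a using hlift
  have hQ : ∀ x : Fin r → ZMod l, K.mkQ (∑ i, x i • c0 i) = ∑ i, x i • B i := by
    intro x
    rw [map_sum]
    exact Finset.sum_congr rfl fun i _ => by rw [map_smul, hc0]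
  refine ⟨r, c0, la, B, hc0, hc0a la rfl, hKj, hLkj, ?_, hmem⟩
  intro j hj1 hj2 x hx i hi
  have := hB j hj1 hj2 _ hx i (by rw [hQ, Module.Basis.repr_sum_self]; exact hi)
  rw [← hc0 i] at this
  exact (hmem j hj1 hj2 _).1 this

private theorem adapted_topD [Fact l.Prime] [Finite F] (Lf : ℕ → Submodule (ZMod l) F)
    (K : Submodule (ZMod l) F)
    {k : ℕ} (hk : 1 ≤ k) (h1 : Lf 1 = ⊤) (hanti : ∀ j, 1 ≤ j → j < k → Lf (j + 1) ≤ Lf j)
    (hK : K ≤ Lf k) {a : F} (ha : a ∈ Lf k) (ha' : a ∉ K) :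
    ∃ (r : ℕ) (cc : Fin r → F) (la : Fin r),
      ((∀ x : Fin r → ZMod l, ∑ i, x i • cc i ∈ K → x = 0) ∧
      (∀ a : F, ∃ x : Fin r → ZMod l, a - ∑ i, x i • cc i ∈ K) ∧
      (∀ j, 1 ≤ j → j ≤ k → ∀ x : Fin r → ZMod l, ∑ i, x i • cc i ∈ Lf j →
        ∀ i, x i ≠ 0 → cc i ∈ Lf j)) ∧ cc la = a := by
  obtain ⟨r, c0, la, B, hc0, hla, hKj, hLkj, hB, hmem⟩ :=
    adapted_lift Lf K hk h1 hanti hK ha ha'
  have hz : ∀ x : F, K.mkQ x = 0 ↔ x ∈ K := fun x => Submodule.Quotient.mk_eq_zero K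
  have hQ : ∀ x : Fin r → ZMod l, K.mkQ (∑ i, x i • c0 i) = ∑ i, x i • B i := by
    intro x
    rw [map_sum]
    exact Finset.sum_congr rfl fun i _ => by rw [map_smul, hc0]
  refine ⟨r, c0, la, ⟨?_, ?_, ?_⟩, hla⟩
  · intro x hx
    rw [← hz, hQ] at hx
    funext i
    have := congrArg (fun y => B.repr y i) hx
    beta_reduce at this
    rw [Module.Basis.repr_sum_self, map_zero] at this
    exact this
  · intro a0
    refine ⟨fun i => B.repr (K.mkQ a0) i, ?_⟩
    rw [← hz, map_sub, hQ, sub_eq_zero]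
    exact (B.sum_repr (K.mkQ a0)).symm
  · intro j hj1 hj2 x hx i hi
    exact hB j hj1 hj2 x ((hmem j hj1 hj2 _).2 hx) i hi

private theorem adapted_top [Fact l.Prime] [Finite F] (Lf : ℕ → Submodule (ZMod l) F)
    (K : Submodule (ZMod l) F)
    {k : ℕ} (hk : 1 ≤ k) (h1 : Lf 1 = ⊤) (hanti : ∀ j, 1 ≤ j → j < k → Lf (j + 1) ≤ Lf j)
    (hK : K ≤ Lf k) {a b : F} (ha : a ∈ Lf k) (ha' : a ∉ K)
    (hab : ∀ x y : ZMod l, x • a + y • b ∈ K → x = 0 ∧ y = 0) :
    ∃ (r : ℕ) (cc : Fin r → F) (la lb : Fin r) (β : Fin r → ZMod l),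
      ((∀ x : Fin r → ZMod l, ∑ i, x i • cc i ∈ K → x = 0) ∧
      (∀ a : F, ∃ x : Fin r → ZMod l, a - ∑ i, x i • cc i ∈ K) ∧
      (∀ j, 1 ≤ j → j ≤ k → ∀ x : Fin r → ZMod l, ∑ i, x i • cc i ∈ Lf j →
        ∀ i, x i ≠ 0 → cc i ∈ Lf j)) ∧
      cc la = a ∧ b = ∑ i, β i • cc i ∧ β la = 0 ∧ β lb = 1 ∧ la ≠ lb := by
  classical
  obtain ⟨r, c0, la, B, hc0, hc0a, hKj, hLkj, hB, hmem⟩ :=
    adapted_lift Lf K hk h1 hanti hK ha ha'
  have hz : ∀ x : F, K.mkQ x = 0 ↔ x ∈ K := fun x => Submodule.Quotient.mk_eq_zero K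
  have hQ : ∀ x : Fin r → ZMod l, K.mkQ (∑ i, x i • c0 i) = ∑ i, x i • B i := by
    intro x
    rw [map_sum]
    exact Finset.sum_congr rfl fun i _ => by rw [map_smul, hc0]
  have hrep : ∀ (x : Fin r → ZMod l) (i : Fin r), B.repr (∑ i, x i • B i) i = x i := by
    intro x i
    rw [Module.Basis.repr_sum_self]
  -- `b` in the basis
  set β' : Fin r → ZMod l := fun i => B.repr (K.mkQ b) i with hβ'
  have hbQ : K.mkQ b = ∑ i, β' i • B i := (B.sum_repr (K.mkQ b)).symm
  set δ : F := b - ∑ i, β' i • c0 i with hδ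
  have hδK : δ ∈ K := by
    rw [← hz, hδ, map_sub, hQ, hbQ, sub_self]
  obtain ⟨lb, hlb, hlab⟩ : ∃ lb, β' lb ≠ 0 ∧ lb ≠ la := by
    by_contra hcon
    push Not at hcon
    have h2 : K.mkQ b = β' la • K.mkQ a := by
      rw [hbQ, ← hc0a, hc0]
      refine Finset.sum_eq_single la (fun i _ hi => ?_) (fun h => absurd (Finset.mem_univ _) h)
      have : β' i = 0 := by
        by_contra hne
        exact hi (hcon i hne)
      rw [this, zero_smul]
    have h3 : -(β' la) • a + (1 : ZMod l) • b ∈ K := by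
      rw [← hz, map_add, map_smul, map_smul, h2, one_smul, neg_smul, neg_add_cancel]
    exact one_ne_zero (hab _ _ h3).2
  -- the new basis element in the place `lb`
  set g : ZMod l := β' lb with hg
  have hg0 : g ≠ 0 := hlb
  set w : F := β' la • a + δ with hw
  set cc : Fin r → F := fun i => if i = lb then g • c0 lb + w else c0 i with hcc
  -- change of coordinates
  set tr : (Fin r → ZMod l) → (Fin r → ZMod l) :=
    fun x i => if i = la then x la + x lb * β' la else if i = lb then x lb * g else x i with htr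
  have hsum : ∀ x : Fin r → ZMod l, ∑ i, x i • cc i = ∑ i, tr x i • c0 i + x lb • δ := by
    intro x
    have e1 : ∑ i, x i • cc i = ∑ i, x i • c0 i + x lb • (g • c0 lb + w - c0 lb) := by
      have : ∀ i, x i • cc i = x i • c0 i +
          (if i = lb then x i • (g • c0 lb + w - c0 lb) else 0) := by
        intro i
        simp only [hcc]
        split_ifs with h
        · subst h
          rw [← smul_add, add_sub_cancel]
        · rw [add_zero]
      rw [Finset.sum_congr rfl fun i _ => this i, Finset.sum_add_distrib,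
        Finset.sum_ite_eq' Finset.univ lb]
      simp
    have e2 : ∑ i, tr x i • c0 i = ∑ i, x i • c0 i + (x lb * β' la) • a +
        (x lb * g - x lb) • c0 lb := by
      have : ∀ i, tr x i • c0 i = x i • c0 i + (if i = la then (x lb * β' la) • a else 0) +
          (if i = lb then (x lb * g - x lb) • c0 lb else 0) := by
        intro i
        simp only [htr]
        by_cases h : i = la
        · subst h
          rw [if_pos rfl, if_pos rfl, if_neg (Ne.symm hlab), add_zero, add_smul, hc0a]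
        · rw [if_neg h, if_neg h, add_zero]
          by_cases h' : i = lb
          · subst h'
            rw [if_pos rfl, if_pos rfl, sub_smul, add_sub_cancel]
          · rw [if_neg h', if_neg h', add_zero]
      rw [Finset.sum_congr rfl fun i _ => this i, Finset.sum_add_distrib, Finset.sum_add_distrib,
        Finset.sum_ite_eq' Finset.univ la, Finset.sum_ite_eq' Finset.univ lb]
      simp
    rw [e1, e2, hw, sub_smul, smul_sub, smul_add, smul_add, smul_smul, smul_smul]
    abel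
  have htrla : ∀ x i, i ≠ la → i ≠ lb → tr x i = x i := fun x i hi hi' => by
    simp only [htr, if_neg hi, if_neg hi']
  have hxlb : ∀ x, tr x lb = x lb * g := fun x => by
    simp only [htr, if_neg hlab, if_true]
  have hxla : ∀ x, tr x la = x la + x lb * β' la := fun x => by
    simp only [htr, if_true]
  have hcoord : ∀ (x : Fin r → ZMod l), K.mkQ (∑ i, x i • cc i) = ∑ i, tr x i • B i := by
    intro x
    rw [hsum, map_add, hQ, map_smul, (hz δ).2 hδK, smul_zero, add_zero]
  have hcc_ne : ∀ i, i ≠ lb → cc i = c0 i := fun i hi => by simp only [hcc, if_neg hi]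
  set β : Fin r → ZMod l := fun i => if i = la then 0 else if i = lb then 1 else β' i with hβ
  refine ⟨r, cc, la, lb, β, ⟨?_, ?_, ?_⟩, ?_, ?_, ?_, ?_, hlab.symm⟩
  · intro x hx
    rw [← hz, hcoord] at hx
    have h0 : ∀ i, tr x i = 0 := by
      intro i
      rw [← hrep (tr x) i, hx]
      simp
    have h3 : x lb = 0 := by
      have := h0 lb
      rw [hxlb] at this
      exact (mul_eq_zero.1 this).resolve_right hg0
    funext i
    by_cases hi : i = la
    · subst hi
      have h2 := h0 i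
      rw [hxla, h3, zero_mul, add_zero] at h2
      exact h2
    · by_cases hi' : i = lb
      · subst hi'
        exact h3
      · rw [← htrla x i hi hi']
        exact h0 i
  · intro a0
    set y : Fin r → ZMod l := fun i => B.repr (K.mkQ a0) i with hy
    set x : Fin r → ZMod l := fun i => if i = la then y la - y lb * g⁻¹ * β' la else
      if i = lb then y lb * g⁻¹ else y i with hxdef
    refine ⟨x, ?_⟩
    rw [← hz, map_sub, hcoord, sub_eq_zero]
    have e1 : x lb = y lb * g⁻¹ := by simp only [hxdef, if_neg hlab, if_true]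
    have : tr x = y := by
      funext i
      by_cases hi : i = la
      · subst hi
        rw [hxla, e1]
        simp only [hxdef, if_true]
        ring
      · by_cases hi' : i = lb
        · subst hi'
          rw [hxlb, e1, mul_assoc, inv_mul_cancel₀ hg0, mul_one]
        · rw [htrla x i hi hi']
          simp only [hxdef, if_neg hi, if_neg hi']
    rw [this]
    exact (B.sum_repr (K.mkQ a0)).symm
  · intro j hj1 hj2 x hx i hi
    have hx2 : K.mkQ (∑ i, x i • cc i) ∈ (Lf j).map K.mkQ := (hmem j hj1 hj2 _).2 hx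
    rw [hcoord, ← hQ] at hx2
    have hB2 : ∀ i, tr x i ≠ 0 → c0 i ∈ Lf j := fun i hi => hB j hj1 hj2 _ hx2 i hi
    have hwj : w ∈ Lf j :=
      (Lf j).add_mem ((Lf j).smul_mem _ (hLkj j hj1 hj2 ha)) (hKj j hj1 hj2 hδK)
    by_cases hila : i = la
    · subst hila
      rw [hcc_ne _ (Ne.symm hlab), hc0a]
      exact hLkj j hj1 hj2 ha
    · by_cases hilb : i = lb
      · subst hilb
        have h5 := hB2 i (by rw [hxlb]; exact mul_ne_zero hi hg0)
        simp only [hcc, if_true]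
        exact (Lf j).add_mem ((Lf j).smul_mem _ h5) hwj
      · rw [hcc_ne _ hilb]
        exact hB2 i (by rw [htrla x i hila hilb]; exact hi)
  · rw [hcc_ne _ (Ne.symm hlab)]
    exact hc0a
  · rw [hsum]
    have hβlb : β lb = 1 := by simp only [hβ, if_neg hlab, if_true]
    have e1 : tr β = β' := by
      funext i
      by_cases hi : i = la
      · subst hi
        rw [hxla, hβlb, one_mul]
        simp only [hβ, if_true, zero_add]
      · by_cases hi' : i = lb
        · subst hi'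
          rw [hxlb, hβlb, one_mul]
        · rw [htrla _ i hi hi']
          simp only [hβ, if_neg hi, if_neg hi']
    rw [e1, hβlb, one_smul, hδ]
    abel
  · simp only [hβ, if_true]
  · simp only [hβ, if_neg hlab, if_true]

private theorem le_Fs {Fs : Submodule (ZMod l) F} {Lf : ℕ → Submodule (ZMod l) F}
    {k : ℕ} (h1 : Lf 1 = Fs) (hanti : ∀ j, 1 ≤ j → j < k → Lf (j + 1) ≤ Lf j) :
    ∀ j, 1 ≤ j → j ≤ k → Lf j ≤ Fs := by
  intro j hj1
  induction j, hj1 using Nat.le_induction with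
  | base => intro _; exact h1.le
  | succ j hj ih => intro hj2; exact (hanti j hj hj2).trans (ih (Nat.le_of_succ_le hj2))

/-- ADAPTED BASIS with `c_1 = a` and `b` a combination of the others, exactly. -/
theorem exists_adapted [Fact l.Prime] [Finite F] (Fs : Submodule (ZMod l) F)
    (Lf : ℕ → Submodule (ZMod l) F) (K : Submodule (ZMod l) F)
    {k : ℕ} (hk : 1 ≤ k) (h1 : Lf 1 = Fs) (hanti : ∀ j, 1 ≤ j → j < k → Lf (j + 1) ≤ Lf j)
    (hK : K ≤ Lf k) {a b : F} (ha : a ∈ Lf k) (hbF : b ∈ Fs)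
    (hab : ∀ x y : ZMod l, x • a + y • b ∈ K → x = 0 ∧ y = 0) :
    ∃ (r : ℕ) (cc : Fin r → F) (la lb : Fin r) (β : Fin r → ZMod l), Adapted Fs Lf K k cc ∧
      cc la = a ∧ b = ∑ i, β i • cc i ∧ β la = 0 ∧ β lb = 1 ∧ la ≠ lb := by
  have hle := le_Fs h1 hanti
  have haF : a ∈ Fs := hle k hk le_rfl ha
  have ha' : a ∉ K := by
    intro h
    have := (hab 1 0 (by rw [one_smul, zero_smul, add_zero]; exact h)).1
    exact one_ne_zero this
  obtain ⟨r, cc, la, lb, β, ⟨e1, e2, e3⟩, e4, e5, e6, e7, e8⟩ := adapted_top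
    (F := Fs) (fun j => (Lf j).comap Fs.subtype) (K.comap Fs.subtype) hk
    (by rw [h1]; exact Submodule.comap_subtype_self Fs)
    (fun j hj1 hj2 => Submodule.comap_mono (hanti j hj1 hj2)) (Submodule.comap_mono hK)
    (a := ⟨a, haF⟩) (b := ⟨b, hbF⟩) ha ha' (fun x y hxy => hab x y hxy)
  have hs : ∀ x : Fin r → ZMod l, ((∑ i, x i • cc i : Fs) : F) = ∑ i, x i • (cc i : F) := by
    intro x
    simp
  refine ⟨r, fun i => cc i, la, lb, β, ⟨fun i => (cc i).2, ?_, ?_, ?_⟩, ?_, ?_, e6, e7, e8⟩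
  · intro x hx
    refine e1 x ?_
    rw [Submodule.mem_comap, Submodule.subtype_apply, hs]
    exact hx
  · intro a' ha'
    obtain ⟨x, hx⟩ := e2 ⟨a', ha'⟩
    refine ⟨x, ?_⟩
    rw [Submodule.mem_comap, Submodule.subtype_apply, Submodule.coe_sub, hs] at hx
    exact hx
  · intro j hj1 hj2 x hx i hi
    refine e3 j hj1 hj2 x ?_ i hi
    rw [Submodule.mem_comap, Submodule.subtype_apply, hs]
    exact hx
  · exact congrArg (fun z : Fs => (z : F)) e4
  · have := congrArg (fun z : Fs => (z : F)) e5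
    rw [hs] at this
    exact this

/-- ADAPTED BASIS with `c_1 = a`. -/
theorem exists_adaptedD [Fact l.Prime] [Finite F] (Fs : Submodule (ZMod l) F)
    (Lf : ℕ → Submodule (ZMod l) F) (K : Submodule (ZMod l) F)
    {k : ℕ} (hk : 1 ≤ k) (h1 : Lf 1 = Fs) (hanti : ∀ j, 1 ≤ j → j < k → Lf (j + 1) ≤ Lf j)
    (hK : K ≤ Lf k) {a : F} (ha : a ∈ Lf k) (ha' : a ∉ K) :
    ∃ (r : ℕ) (cc : Fin r → F) (la : Fin r), Adapted Fs Lf K k cc ∧ cc la = a := by
  have hle := le_Fs h1 hanti
  have haF : a ∈ Fs := hle k hk le_rfl ha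
  obtain ⟨r, cc, la, ⟨e1, e2, e3⟩, e4⟩ := adapted_topD
    (F := Fs) (fun j => (Lf j).comap Fs.subtype) (K.comap Fs.subtype) hk
    (by rw [h1]; exact Submodule.comap_subtype_self Fs)
    (fun j hj1 hj2 => Submodule.comap_mono (hanti j hj1 hj2)) (Submodule.comap_mono hK)
    (a := ⟨a, haF⟩) ha ha'
  have hs : ∀ x : Fin r → ZMod l, ((∑ i, x i • cc i : Fs) : F) = ∑ i, x i • (cc i : F) := by
    intro x
    simp
  refine ⟨r, fun i => cc i, la, ⟨fun i => (cc i).2, ?_, ?_, ?_⟩, ?_⟩
  · intro x hx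
    refine e1 x ?_
    rw [Submodule.mem_comap, Submodule.subtype_apply, hs]
    exact hx
  · intro a' ha'
    obtain ⟨x, hx⟩ := e2 ⟨a', ha'⟩
    refine ⟨x, ?_⟩
    rw [Submodule.mem_comap, Submodule.subtype_apply, Submodule.coe_sub, hs] at hx
    exact hx
  · intro j hj1 hj2 x hx i hi
    refine e3 j hj1 hj2 x ?_ i hi
    rw [Submodule.mem_comap, Submodule.subtype_apply, hs]
    exact hx
  · exact congrArg (fun z : Fs => (z : F)) e4

/-- The basis used in the grid theorem: `c_la = a`, `b` a combination of the others. -/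
theorem Tower.exists_basis {A M : Type*} [CommRing A] [AddCommGroup M] [Module A M]
    {W : Tower l A F M} (h : W.Ok) {k : ℕ}
    (hk : 1 ≤ k) {a b : F} (ha : a ∈ W.L k) (hb : b ∈ W.Fs) (hI : W.Ind a b) :
    ∃ (r : ℕ) (cc : Fin r → F) (la lb : Fin r) (β : Fin r → ZMod l),
      Adapted W.Fs W.L W.Kp k cc ∧ cc la = a ∧ b = ∑ i, β i • cc i ∧ β la = 0 ∧ β lb = 1 ∧
        la ≠ lb := by
  have := h.fin
  have : Fact l.Prime := ⟨h.prime⟩
  exact exists_adapted W.Fs W.L W.Kp hk (Tower.L_one h)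
    (fun j hj1 _ => Tower.L_succ_le h hj1) (Tower.kp_le_L h hk) ha hb hI

/-- The basis used in the diagonal case. -/
theorem Tower.exists_basisD {A M : Type*} [CommRing A] [AddCommGroup M] [Module A M]
    {W : Tower l A F M} (h : W.Ok) {k : ℕ}
    (hk : 1 ≤ k) {a : F} (ha : a ∈ W.L k) (ha' : a ∉ W.Kp) :
    ∃ (r : ℕ) (cc : Fin r → F) (la : Fin r), Adapted W.Fs W.L W.Kp k cc ∧ cc la = a := by
  have := h.fin
  have : Fact l.Prime := ⟨h.prime⟩
  exact exists_adaptedD W.Fs W.L W.Kp hk (Tower.L_one h)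
    (fun j hj1 _ => Tower.L_succ_le h hj1) (Tower.kp_le_L h hk) ha ha'

end Pool.Agent.SmL
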