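import Pool.Agent.Lib.SmL.G6.Codes
import Pool.Agent.Lib.SmL.Cnt.Psi
import Pool.Agent.Lib.SmL.G.TowerFacts
import Pool.Agent.Lib.SmL.G6.TowerB
import Pool.Agent.Lib.SmL.G6.TowerC
import Pool.Agent.Lib.SmL.G6.TowerD

/-!
# SMITH-L, block G6: the tower of the twist by a vector of marked primes

The tower lives over a submodule `U` of the codes which consists of the valid codes; so the towers of
two vectors with the same valid codes can be compared.
-/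

set_option autoImplicit false

open Finset

namespace Pool.Agent.SmL.CData


variable {l : ℕ} {A G V V1 Pl : Type} [CommRing A] [Group G] [AddCommGroup V] [Module A V]
  [DistribMulAction G V] [AddCommGroup V1] [Module (ZMod l) V1] {S : Sys l A G V V1 Pl}
  {X : PSys}

section

variable (cd : CData S X) (h : S.Ok) (hc : cd.Ok) {J : Type} [Fintype J] (ex : J → ZMod l)
  (p : J → cd.Mk) (U : Submodule (ZMod l) (cd.CodeN J)) (hU : ∀ c, c ∈ U ↔ cd.ValidN p c)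

/-- The cocycle of a valid code, as a homomorphism. -/
noncomputable def homU : U →+ (G → V1) where
  toFun c := cd.homN p c.1
  map_zero' := homN_zero hc
  map_add' c c' := homN_add hc ((hU _).1 c.2) ((hU _).1 c'.2)

/-- The tower of the twist by the vector `p`. -/
noncomputable def twN : Tower l A U (G → V) where
  lam := S.lam
  Z := S.SelZ h (cd.chiN ex p)
  T := S.Cob (cd.chiN ex p)
  P := S.PV (cd.chiN ex p)
  c :=
    { toFun := fun c s => S.iota (cd.homN p c.1 s)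
      map_zero' := by
        funext s
        rw [ZeroMemClass.coe_zero, homN_zero hc]
        exact map_zero _
      map_add' := by
        intro c c'
        funext s
        rw [AddMemClass.coe_add, homN_add hc ((hU _).1 c.2) ((hU _).1 c'.2)]
        exact map_add _ _ _ }
  Fs := AddSubgroup.toZModSubmodule l
    ((S.Sel1 h (cd.chiN ex p)).comap (homU cd hc p U hU))

end

variable {cd : CData S X} {J : Type} [Fintype J] {ex : J → ZMod l} {p : J → cd.Mk}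
  {U : Submodule (ZMod l) (cd.CodeN J)}

theorem twN_c (h : S.Ok) (hc : cd.Ok) (hU : ∀ c, c ∈ U ↔ cd.ValidN p c) (c : U) :
    (twN cd h hc ex p U hU).c c = fun s => S.iota (cd.homN p c.1 s) := rfl

theorem twN_Z (h : S.Ok) (hc : cd.Ok) (hU : ∀ c, c ∈ U ↔ cd.ValidN p c) (i : ℕ) :
    (twN cd h hc ex p U hU).Z i = S.SelZ h (cd.chiN ex p) i := rfl

theorem twN_T (h : S.Ok) (hc : cd.Ok) (hU : ∀ c, c ∈ U ↔ cd.ValidN p c) :
    (twN cd h hc ex p U hU).T = S.Cob (cd.chiN ex p) := rfl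

theorem twN_lam (h : S.Ok) (hc : cd.Ok) (hU : ∀ c, c ∈ U ↔ cd.ValidN p c) :
    (twN cd h hc ex p U hU).lam = S.lam := rfl

theorem twN_P (h : S.Ok) (hc : cd.Ok) (hU : ∀ c, c ∈ U ↔ cd.ValidN p c) :
    (twN cd h hc ex p U hU).P = S.PV (cd.chiN ex p) := rfl

theorem mem_twN_Fs (h : S.Ok) (hc : cd.Ok) (hU : ∀ c, c ∈ U ↔ cd.ValidN p c) (c : U) :
    c ∈ (twN cd h hc ex p U hU).Fs ↔ c.1 ∈ cd.FN ex p := by
  rw [twN, AddSubgroup.mem_toZModSubmodule]
  exact ⟨fun hh => ⟨(hU _).1 c.2, hh⟩, fun hh => hh.2⟩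

/-- The codes of the Selmer group lie in `U`. -/
theorem FN_le (hU : ∀ c, c ∈ U ↔ cd.ValidN p c) {c : cd.CodeN J} (hF : c ∈ cd.FN ex p) : c ∈ U :=
  (hU c).2 hF.1

theorem kap_mem_U (hU : ∀ c, c ∈ U ↔ cd.ValidN p c) (z : V1) : cd.kapN J z ∈ U :=
  (hU _).2 (valid_kap p z)

/-- The tower of the twist satisfies all axioms. -/
theorem twN_ok (h : S.Ok) (hc : cd.Ok) (hU : ∀ c, c ∈ U ↔ cd.ValidN p c) (hp : cd.PVecN p) :
    (twN cd h hc ex p U hU).Ok where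
  prime := h.prime
  fin := by
    have := h.fin1
    have : NeZero l := ⟨h.prime.ne_zero⟩
    infer_instance
  smul := fun _ _ hm => Sys.SelZ_smul h _ hm _
  tsmul := fun _ ht => Sys.Cob_smul h ht _
  clam := fun a => by
    funext s
    exact h.lam_iota _
  zero := Sys.SelZ_zero h _
  mono := Sys.SelZ_le_succ h _
  lev := fun _ _ hm => Sys.SelZ_pow h _ hm
  low := fun _ _ hm h0 => Sys.SelZ_of_pow h _ hm h0
  addl := fun _ _ hm _ hm' _ hb => Sys.PV_add_left h (chiN_hom h hc ex p) hm hm' hb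
  addr := fun _ _ hm _ hb _ hb' => Sys.PV_add_right h (chiN_hom h hc ex p) hm hb hb'
  crit := fun _ _ hm => Sys.PV_crit h (chiN_hom h hc ex p) hm
  ttor := fun _ ht => Sys.Cob_tors h ht
  tdiv := fun _ ht => Sys.Cob_half h ht
  tlev := fun _ _ ht h0 => Sys.Cob_SelZ h (chiN_hom h hc ex p) ht h0
  cinj := by
    rw [injective_iff_map_eq_zero]
    intro a ha
    apply Subtype.ext
    refine homN_inj_zero hc hp ((hU _).1 a.2) ?_
    funext s
    exact (Sys.iota_eq_zero h).1 (congrFun ha s)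
  crange := by
    intro m
    constructor
    · intro hm
      have h1 := Sys.isSel_un h hm
      obtain ⟨c, hv, hcc⟩ := homN_surj h hc hp h1
      refine ⟨⟨c, (hU c).2 hv⟩, (mem_twN_Fs h hc hU _).mpr ⟨hv, by rw [hcc]; exact h1⟩, ?_⟩
      rw [twN_c]
      funext s
      rw [hcc]
      refine Sys.iota_un h ?_
      have := (show S.IsSel (cd.chiN ex p) 1 m from hm).lev s
      rwa [pow_one] at this
    · rintro ⟨a, ha, rfl⟩
      exact Sys.isSel_iota h (chiN_hom h hc ex p) ((mem_twN_Fs h hc hU a).mp ha).2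

/-! ### The torsion codes -/

theorem mem_twN_Kp [Nonempty J] (h : S.Ok) (hc : cd.Ok) (hU : ∀ c, c ∈ U ↔ cd.ValidN p c)
    (hp : cd.PVecN p) (hex : ∀ j, ex j ≠ 0) (a : U) :
    a ∈ (twN cd h hc ex p U hU).Kp ↔ ∃ z, a.1 = cd.kapN J z := by
  obtain ⟨j⟩ := (inferInstance : Nonempty J)
  rw [Tower.mem_Kp, twN_T, Sys.mem_Cob, twN_c]
  constructor
  · rintro ⟨Q, hQ⟩
    have h2 : S.lam • Q = 0 := by
      refine two_of_dl h hc hp (hex j) fun s => ?_
      rw [← congrFun hQ s]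
      exact h.lam_iota _
    obtain ⟨z, hz⟩ := h.iota_range _ h2
    refine ⟨z, ?_⟩
    refine homN_inj hc hp ((hU _).1 a.2) (valid_kap p z) ?_
    funext s
    rw [homN_kap hc]
    apply h.iota_inj
    rw [congrFun hQ s, ← hz, Sys.dl_iota h]
  · rintro ⟨z, hz⟩
    refine ⟨S.iota z, funext fun s => ?_⟩
    rw [hz, homN_kap hc, Sys.dl_iota h]

theorem kapN_inj (hc : cd.Ok) {z z' : V1} (h : cd.kapN J z = cd.kapN J z') : z = z' := by
  have h1 : cd.kb z = cd.kb z' := congrArg Prod.fst h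
  have h2 : ∀ s, S.ac s (z - z') = z - z' := by
    intro s
    have h3 := hc.kb_eq z s
    rw [h1, hc.kb_eq z' s] at h3
    rw [map_sub]
    rw [sub_eq_sub_iff_add_eq_add] at h3 ⊢
    rw [← h3]
    abel
  exact sub_eq_zero.1 (hc.nofix _ h2)

theorem card_twN_Kp [Nonempty J] (h : S.Ok) (hc : cd.Ok) (hU : ∀ c, c ∈ U ↔ cd.ValidN p c)
    (hp : cd.PVecN p) (hex : ∀ j, ex j ≠ 0) :
    Nat.card (twN cd h hc ex p U hU).Kp ≤ Nat.card V1 := by
  have := h.fin1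
  have hs : Function.Surjective (fun z : V1 => (⟨⟨cd.kapN J z, kap_mem_U hU z⟩,
      (mem_twN_Kp h hc hU hp hex _).mpr ⟨z, rfl⟩⟩ : (twN cd h hc ex p U hU).Kp)) := by
    rintro ⟨⟨a, haU⟩, ha⟩
    obtain ⟨z, rfl⟩ := (mem_twN_Kp h hc hU hp hex _).mp ha
    exact ⟨z, rfl⟩
  exact Nat.card_le_card_of_surjective _ hs

/-- `l` is a multiple of `lam` on the tower. -/
theorem twN_ldiv (h : S.Ok) (hc : cd.Ok) (hU : ∀ c, c ∈ U ↔ cd.ValidN p c) :
    (twN cd h hc ex p U hU).LDiv := by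
  obtain ⟨q, hq⟩ := Sys.l_smul h
  refine ⟨q, fun m => funext fun s => ?_⟩
  rw [Pi.smul_apply, hq (m s)]
  rfl

/-! ### Translation of the definitions of `Cnt/Stmts.lean` -/

theorem twN_PV (h : S.Ok) (hc : cd.Ok) (hU : ∀ c, c ∈ U ↔ cd.ValidN p c) (m : G → V) (b : U) :
    (twN cd h hc ex p U hU).P m ((twN cd h hc ex p U hU).c b) = S.CT (cd.chiN ex p) m (cd.homN p b.1) := by
  rw [twN_P, twN_c, Sys.PV]
  simp only [Sys.un_iota h]

theorem abvN_iff (h : S.Ok) (hc : cd.Ok) (hU : ∀ c, c ∈ U ↔ cd.ValidN p c) {i : ℕ} {a : U}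
    {Psi : G → V} : cd.AbvN ex p i a.1 Psi ↔
    Psi ∈ (twN cd h hc ex p U hU).Z i ∧ S.lam ^ (i - 1) • Psi = (twN cd h hc ex p U hU).c a := by
  rw [AbvN, twN_Z, Sys.mem_SelZ, twN_c]
  exact and_congr_right fun _ => ⟨fun h2 => funext h2, fun h2 s => congrFun h2 s⟩

open Classical in
/-- Extension by `0` of a function on `U`. -/
noncomputable def extU (U : Submodule (ZMod l) (cd.CodeN J)) (f : U → ZMod l)
    (c : cd.CodeN J) : ZMod l := if hh : c ∈ U then f ⟨c, hh⟩ else 0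

omit [Fintype J] in
theorem extU_mem (f : U → ZMod l) (c : U) : extU U f c.1 = f c := by
  rw [extU, dif_pos c.2]

omit [Fintype J] in
theorem extU_inj {f g : U → ZMod l} (hfg : extU U f = extU U g) : f = g := by
  funext c
  rw [← extU_mem f c, hfg, extU_mem g c]

omit [Fintype J] in
theorem extU_zero : extU U (0 : U → ZMod l) = 0 := by
  funext c
  rw [extU]
  split_ifs <;> rfl

theorem mem_LamN_iff (h : S.Ok) (hc : cd.Ok) (hU : ∀ c, c ∈ U ↔ cd.ValidN p c) (hp : cd.PVecN p)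
    {i : ℕ} (hi : 1 ≤ i) (y : cd.CodeN J × (cd.CodeN J → ZMod l)) :
    y ∈ cd.LamN ex p i ↔ ∃ y' ∈ (twN cd h hc ex p U hU).Lam i, y.1 = y'.1.1 ∧ y.2 = extU U y'.2 := by
  constructor
  · rintro ⟨hy, Psi, hA, h1, h2⟩
    have hyU : y.1 ∈ U := FN_le hU hy
    obtain ⟨h3, h4⟩ := (abvN_iff h hc hU (a := ⟨y.1, hyU⟩)).mp hA
    refine ⟨(⟨y.1, hyU⟩, fun c => y.2 c.1), ⟨Psi, h3, h4, ?_⟩, rfl, ?_⟩
    · refine Tower.ev_eq_iff.mpr ⟨fun b hb => ?_, fun b hb => ?_⟩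
      · rw [twN_PV]
        exact h1 b.1 ((mem_twN_Fs h hc hU b).mp hb)
      · exact h2 b.1 fun hb' => hb ((mem_twN_Fs h hc hU b).mpr hb')
    · funext c
      by_cases hcU : c ∈ U
      · exact (extU_mem (fun c : U => y.2 c.1) ⟨c, hcU⟩).symm
      · rw [extU, dif_neg hcU]
        exact h2 c fun hF => hcU (FN_le hU hF)
  · rintro ⟨y', hy', e1, e2⟩
    have hF := Tower.lam_fst (twN_ok h hc hU hp) hi hy'
    obtain ⟨Psi, h3, h4, h5⟩ := hy'
    obtain ⟨h6, h7⟩ := Tower.ev_eq_iff.mp h5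
    refine ⟨?_, Psi, ?_, fun c hcF => ?_, fun c hcF => ?_⟩
    · rw [e1]
      exact (mem_twN_Fs h hc hU _).mp hF
    · rw [e1]
      exact (abvN_iff h hc hU).mpr ⟨h3, h4⟩
    · have hcU : c ∈ U := FN_le hU hcF
      rw [e2]
      have := h6 ⟨c, hcU⟩ ((mem_twN_Fs h hc hU _).mpr hcF)
      rw [twN_PV] at this
      rw [← this]
      exact extU_mem y'.2 ⟨c, hcU⟩
    · rw [e2]
      by_cases hcU : c ∈ U
      · rw [show extU U y'.2 c = y'.2 ⟨c, hcU⟩ from extU_mem y'.2 ⟨c, hcU⟩]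
        exact h7 ⟨c, hcU⟩ fun hb => hcF ((mem_twN_Fs h hc hU _).mp hb)
      · rw [extU, dif_neg hcU]

/-- The relations of two towers over the same submodule agree iff the sets `LamN` agree. -/
theorem LamN_congr (h : S.Ok) (hc : cd.Ok) (hU : ∀ c, c ∈ U ↔ cd.ValidN p c) (hp : cd.PVecN p)
    {p' : J → cd.Mk} (hU' : ∀ c, c ∈ U ↔ cd.ValidN p' c) (hp' : cd.PVecN p') {i : ℕ}
    (hi : 1 ≤ i) :
    cd.LamN ex p i = cd.LamN ex p' i ↔ (twN cd h hc ex p U hU).Lam i = (twN cd h hc ex p' U hU').Lam i := by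
  have key : ∀ {p p' : J → cd.Mk} (hU : ∀ c, c ∈ U ↔ cd.ValidN p c) (hp : cd.PVecN p)
      (hU' : ∀ c, c ∈ U ↔ cd.ValidN p' c) (hp' : cd.PVecN p'), cd.LamN ex p i = cd.LamN ex p' i →
      (twN cd h hc ex p U hU).Lam i ⊆ (twN cd h hc ex p' U hU').Lam i := by
    intro p p' hU hp hU' hp' he y hy
    have h1 : (y.1.1, extU U y.2) ∈ cd.LamN ex p i :=
      (mem_LamN_iff h hc hU hp hi _).2 ⟨y, hy, rfl, rfl⟩
    rw [he] at h1
    obtain ⟨y', hy', e1, e2⟩ := (mem_LamN_iff h hc hU' hp' hi _).1 h1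
    have : y = y' := Prod.ext (Subtype.ext e1) (extU_inj e2)
    rwa [this]
  constructor
  · intro he
    exact Set.Subset.antisymm (key hU hp hU' hp' he) (key hU' hp' hU hp he.symm)
  · intro he
    ext y
    rw [mem_LamN_iff h hc hU hp hi, mem_LamN_iff h hc hU' hp' hi, he]

/-- The flags are the `L i` of the tower. -/
theorem mem_LflN_iff_tw (h : S.Ok) (hc : cd.Ok) (hU : ∀ c, c ∈ U ↔ cd.ValidN p c)
    (hp : cd.PVecN p) {i : ℕ} (hi : 1 ≤ i) (a : U) :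
    a.1 ∈ cd.LflN (cd.FN ex p) (cd.LamN ex p) i ↔ a ∈ (twN cd h hc ex p U hU).L i := by
  obtain ⟨i, rfl⟩ := Nat.exists_eq_add_of_le' hi
  cases i with
  | zero =>
    change a.1 ∈ cd.FN ex p ↔ _
    rw [Tower.L_one (twN_ok h hc hU hp), mem_twN_Fs]
  | succ i =>
    change (a.1, 0) ∈ cd.LamN ex p (i + 1) ↔ _
    rw [mem_LamN_iff h hc hU hp (Nat.succ_le_succ (Nat.zero_le i)),
      ← Tower.lam_zero_right (twN_ok h hc hU hp) (Nat.succ_le_succ (Nat.zero_le i))]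
    constructor
    · rintro ⟨y', hy', e1, e2⟩
      have e3 : y'.2 = 0 := extU_inj (e2.symm.trans extU_zero.symm)
      have e4 : y' = (a, 0) := Prod.ext (Subtype.ext e1.symm) e3
      rwa [e4] at hy'
    · intro hy
      exact ⟨(a, 0), hy, rfl, extU_zero.symm⟩

theorem LflN_sub_FN (h : S.Ok) (hc : cd.Ok) (hU : ∀ c, c ∈ U ↔ cd.ValidN p c)
    (hp : cd.PVecN p) {i : ℕ} (hi : 1 ≤ i) :
    cd.LflN (cd.FN ex p) (cd.LamN ex p) i ⊆ cd.FN ex p := by
  obtain ⟨i, rfl⟩ := Nat.exists_eq_add_of_le' hi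
  cases i with
  | zero => exact fun _ ha => ha
  | succ i => exact fun a ha => (show (a, 0) ∈ cd.LamN ex p (i + 1) from ha).1

theorem card_LflN (h : S.Ok) (hc : cd.Ok) (hU : ∀ c, c ∈ U ↔ cd.ValidN p c)
    (hp : cd.PVecN p) {i : ℕ} (hi : 1 ≤ i) :
    Nat.card (cd.LflN (cd.FN ex p) (cd.LamN ex p) i) = Nat.card ((twN cd h hc ex p U hU).L i) := by
  refine Nat.card_congr
    { toFun := fun a => ⟨⟨a.1, FN_le hU (LflN_sub_FN h hc hU hp hi a.2)⟩,
        (mem_LflN_iff_tw h hc hU hp hi ⟨a.1, _⟩).1 a.2⟩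
      invFun := fun a => ⟨a.1.1, (mem_LflN_iff_tw h hc hU hp hi a.1).2 a.2⟩
      left_inv := fun a => rfl
      right_inv := fun a => rfl }

/-- (a) `a` lies in `L i` iff there is a Selmer cocycle of level `i` above `a`. -/
theorem mem_LflN_iff (h : S.Ok) (hc : cd.Ok) (hU : ∀ c, c ∈ U ↔ cd.ValidN p c)
    (hp : cd.PVecN p) {i : ℕ} (hi : 1 ≤ i) (a : U) :
    a.1 ∈ cd.LflN (cd.FN ex p) (cd.LamN ex p) i ↔ ∃ Psi, cd.AbvN ex p i a.1 Psi := by
  rw [mem_LflN_iff_tw h hc hU hp hi, Tower.mem_L]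
  exact exists_congr fun Psi => (abvN_iff h hc hU).symm

theorem perpN_iff (h : S.Ok) (hc : cd.Ok) (hU : ∀ c, c ∈ U ↔ cd.ValidN p c)
    (hp : cd.PVecN p) (i : ℕ) (b : U) (hb : b.1 ∈ cd.FN ex p) :
    cd.PerpN (cd.LamN ex p) i b.1 ↔ (twN cd h hc ex p U hU).Perp i b := by
  have hb' := (mem_twN_Fs h hc hU b).mpr hb
  rcases Nat.eq_zero_or_pos i with rfl | hi
  · rw [Tower.perp_zero (twN_ok h hc hU hp)]
    exact ⟨fun _ => hb', fun _ h0 => absurd h0 (by omega)⟩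
  · rw [Tower.perp_iff_lam (twN_ok h hc hU hp) hi]
    constructor
    · intro hP
      refine ⟨hb', fun y hy => ?_⟩
      have := hP hi (y.1.1, extU U y.2) ((mem_LamN_iff h hc hU hp hi _).2 ⟨y, hy, rfl, rfl⟩)
      exact (extU_mem y.2 b).symm.trans this
    · rintro ⟨_, hP⟩ _ y hy
      obtain ⟨y', hy', e1, e2⟩ := (mem_LamN_iff h hc hU hp hi y).1 hy
      rw [e2, extU_mem]
      exact hP y' hy'

/-- `b` is perpendicular to level `i` iff it pairs to zero with all Selmer cocycles of level `i`. -/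
theorem perpN_iff_CT (h : S.Ok) (hc : cd.Ok) (hU : ∀ c, c ∈ U ↔ cd.ValidN p c)
    (hp : cd.PVecN p) (i : ℕ) (b : U) (hb : b.1 ∈ cd.FN ex p) :
    cd.PerpN (cd.LamN ex p) i b.1 ↔
      ∀ Psi, S.IsSel (cd.chiN ex p) i Psi → S.CT (cd.chiN ex p) Psi (cd.homN p b.1) = 0 := by
  rw [perpN_iff h hc hU hp i b hb]
  constructor
  · rintro ⟨_, hP⟩ Psi hPsi
    rw [← twN_PV h hc hU]
    exact hP Psi hPsi
  · intro hP
    refine ⟨(mem_twN_Fs h hc hU b).mpr hb, fun m hm => ?_⟩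
    rw [twN_PV h hc hU]
    exact hP m hm

/-- `F_ab` does not depend on the choice of the cocycle. -/
theorem FFN_eq (h : S.Ok) (hc : cd.Ok) (hU : ∀ c, c ∈ U ↔ cd.ValidN p c)
    (hp : cd.PVecN p) {m : ℕ} (hm : 1 ≤ m) (a b : U) (hb : b.1 ∈ cd.FN ex p)
    (hP : cd.PerpN (cd.LamN ex p) (m - 1) b.1) {Psi : G → V} (hA : cd.AbvN ex p m a.1 Psi) :
    cd.FFN ex p m a.1 b.1 = S.CT (cd.chiN ex p) Psi (cd.homN p b.1) := by
  have hex : ∃ Psi : G → V, cd.AbvN ex p m a.1 Psi := ⟨Psi, hA⟩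
  rw [FFN, dif_pos hex]
  have h1 := (abvN_iff h hc hU).mp hA
  have h2 := (abvN_iff h hc hU).mp hex.choose_spec
  have hP' := (perpN_iff h hc hU hp _ b hb).mp hP
  rw [← twN_PV h hc hU, ← twN_PV h hc hU, ← Tower.fab_eq (twN_ok h hc hU hp) hm hP' h1.1 h1.2,
    ← Tower.fab_eq (twN_ok h hc hU hp) hm hP' h2.1 h2.2]

theorem FFN_eq_Fab (h : S.Ok) (hc : cd.Ok) (hU : ∀ c, c ∈ U ↔ cd.ValidN p c)
    (hp : cd.PVecN p) {m : ℕ} (hm : 1 ≤ m) (a b : U)
    (ha : a.1 ∈ cd.LflN (cd.FN ex p) (cd.LamN ex p) m) (hb : b.1 ∈ cd.FN ex p)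
    (hP : cd.PerpN (cd.LamN ex p) (m - 1) b.1) :
    cd.FFN ex p m a.1 b.1 = (twN cd h hc ex p U hU).Fab m a b := by
  obtain ⟨Psi, hA⟩ := (mem_LflN_iff h hc hU hp hm a).mp ha
  have h1 := (abvN_iff h hc hU).mp hA
  rw [FFN_eq h hc hU hp hm a b hb hP hA, ← twN_PV h hc hU, Tower.fab_eq (twN_ok h hc hU hp) hm
    ((perpN_iff h hc hU hp _ b hb).mp hP) h1.1 h1.2]

theorem indep2N_iff [Nonempty J] (h : S.Ok) (hc : cd.Ok) (hU : ∀ c, c ∈ U ↔ cd.ValidN p c)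
    (hp : cd.PVecN p) (hex : ∀ j, ex j ≠ 0) (a b : U) :
    cd.Indep2N a.1 b.1 ↔ (twN cd h hc ex p U hU).Ind a b := by
  constructor
  · intro hI x y hxy
    obtain ⟨z, hz⟩ := (mem_twN_Kp h hc hU hp hex _).mp hxy
    exact hI x y z hz
  · intro hI x y z hz
    exact hI x y ((mem_twN_Kp h hc hU hp hex _).mpr ⟨z, hz⟩)

theorem notKap_iff [Nonempty J] (h : S.Ok) (hc : cd.Ok) (hU : ∀ c, c ∈ U ↔ cd.ValidN p c)
    (hp : cd.PVecN p) (hex : ∀ j, ex j ≠ 0) (a : U) :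
    a ∉ (twN cd h hc ex p U hU).Kp ↔ ∀ z, a.1 ≠ cd.kapN J z := by
  rw [mem_twN_Kp h hc hU hp hex]
  push Not
  rfl

/-- A pair of codes outside of the coboundaries is independent or diagonal. -/
theorem indep_or_diag (hS : S.Ok) {J : Type} (a b : cd.CodeN J) :
    ((∀ z, a ≠ cd.kapN J z) ∧ ∀ z, b ≠ cd.kapN J z) ↔ (cd.Indep2N a b ∨ cd.DiagN a b) := by
  have : Fact l.Prime := ⟨hS.prime⟩
  constructor
  · rintro ⟨ha, hb⟩
    by_cases hI : cd.Indep2N a b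
    · exact Or.inl hI
    right
    refine ⟨ha, ?_⟩
    unfold Indep2N at hI
    push Not at hI
    obtain ⟨x, y, z, hz, hxy⟩ := hI
    have hy : y ≠ 0 := by
      intro hy
      subst hy
      have hx : x ≠ 0 := fun hx => hxy hx rfl
      rw [zero_smul, add_zero] at hz
      apply ha (x⁻¹ • z)
      rw [kapN_smul, ← hz, smul_smul, inv_mul_cancel₀ hx, one_smul]
    have hx : x ≠ 0 := by
      intro hx
      subst hx
      rw [zero_smul, zero_add] at hz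
      apply hb (y⁻¹ • z)
      rw [kapN_smul, ← hz, smul_smul, inv_mul_cancel₀ hy, one_smul]
    refine ⟨-(y⁻¹ * x), neg_ne_zero.2 (mul_ne_zero (inv_ne_zero hy) hx), y⁻¹ • z, ?_⟩
    rw [kapN_smul, ← hz, smul_add, smul_smul, smul_smul, inv_mul_cancel₀ hy, one_smul, neg_smul,
      neg_add_cancel_left]
  · rintro (hI | ⟨ha, μ, hμ, z, hz⟩)
    · constructor
      · intro z hz
        have := (hI 1 0 z (by rw [one_smul, zero_smul, add_zero, hz])).1
        exact one_ne_zero this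
      · intro z hz
        have := (hI 0 1 z (by rw [one_smul, zero_smul, zero_add, hz])).2
        exact one_ne_zero this
    · refine ⟨ha, fun z' hz' => ?_⟩
      apply ha (μ⁻¹ • (z' - z))
      have : μ • a = cd.kapN J (z' - z) := by
        have e : cd.kapN J z' = cd.kapN J (z' - z) + cd.kapN J z := by
          rw [← kapN_add, sub_add_cancel]
        rw [hz', e] at hz
        exact (add_right_cancel hz).symm
      rw [kapN_smul, ← this, smul_smul, inv_mul_cancel₀ hμ, one_smul]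

theorem not_diag_of_indep (hS : S.Ok) {J : Type} {a b : cd.CodeN J} (hI : cd.Indep2N a b) :
    ¬ cd.DiagN a b := by
  have : Fact l.Prime := ⟨hS.prime⟩
  rintro ⟨_, μ, _, z, hz⟩
  have := (hI (-μ) 1 z (by rw [hz, neg_smul, one_smul, neg_add_cancel_left])).2
  exact one_ne_zero this

/-! ### Cardinalities -/

theorem card_nZN (h : S.Ok) (hc : cd.Ok) (hU : ∀ c, c ∈ U ↔ cd.ValidN p c) (i : ℕ) :
    cd.nZN ex p i = Nat.card ((twN cd h hc ex p U hU).Z i) := rfl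

open Classical in
/-- Translation of the sums over pairs. -/
theorem sum_pairs [Nonempty J] (h : S.Ok) (hc : cd.Ok) (hU : ∀ c, c ∈ U ↔ cd.ValidN p c)
    (hp : cd.PVecN p) {i : ℕ} (hi : 1 ≤ i) (R : cd.CodeN J → cd.CodeN J → Prop)
    (R' : U → U → Prop)
    (hR : ∀ a b : U, R a.1 b.1 ↔ (a ∉ (twN cd h hc ex p U hU).Kp ∧ R' a b)) [Fintype U] :
    (∑ᶠ ab : cd.CodeN J × cd.CodeN J,
      if ab.1 ∈ cd.LflN (cd.FN ex p) (cd.LamN ex p) i ∧ ab.2 ∈ cd.FN ex p ∧ R ab.1 ab.2 ∧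
        cd.PerpN (cd.LamN ex p) (i - 1) ab.2 then psi (cd.FFN ex p i ab.1 ab.2) else 0) =
    ∑ a : U, ∑ b : U, if a ∈ (twN cd h hc ex p U hU).L i ∧ a ∉ (twN cd h hc ex p U hU).Kp ∧
      R' a b ∧ (twN cd h hc ex p U hU).Perp (i - 1) b then
        psi ((twN cd h hc ex p U hU).Fab i a b) else 0 := by
  have := h.fin1
  have : NeZero l := ⟨h.prime.ne_zero⟩
  have := Fintype.ofFinite (cd.CodeN J)
  rw [finsum_eq_sum_of_fintype, ← Finset.sum_product', Finset.univ_product_univ]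
  symm
  refine Finset.sum_of_injOn (fun ab => (ab.1.1, ab.2.1)) ?_ ?_ ?_ ?_
  · intro x _ y _ hxy
    simp only [Prod.mk.injEq] at hxy
    exact Prod.ext (Subtype.ext hxy.1) (Subtype.ext hxy.2)
  · intro x _
    simp
  · intro y _ hy
    rw [if_neg]
    rintro ⟨h1, h2, -, -⟩
    apply hy
    refine ⟨(⟨y.1, FN_le hU (LflN_sub_FN h hc hU hp hi h1)⟩, ⟨y.2, FN_le hU h2⟩), by simp, rfl⟩
  · rintro ⟨a, b⟩ _
    simp only
    by_cases hb : b.1 ∈ cd.FN ex p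
    · by_cases h1 : a ∈ (twN cd h hc ex p U hU).L i ∧ a ∉ (twN cd h hc ex p U hU).Kp ∧
        R' a b ∧ (twN cd h hc ex p U hU).Perp (i - 1) b
      · have h2 := (mem_LflN_iff_tw h hc hU hp hi a).mpr h1.1
        have h3 := (perpN_iff h hc hU hp _ b hb).mpr h1.2.2.2
        rw [if_pos h1, if_pos ⟨h2, hb, (hR a b).2 ⟨h1.2.1, h1.2.2.1⟩, h3⟩,
          FFN_eq_Fab h hc hU hp hi a b h2 hb h3]
      · rw [if_neg h1, if_neg]
        rintro ⟨h2, _, h3, h4⟩
        apply h1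
        exact ⟨(mem_LflN_iff_tw h hc hU hp hi a).1 h2, ((hR a b).1 h3).1, ((hR a b).1 h3).2,
          (perpN_iff h hc hU hp _ b hb).1 h4⟩
    · rw [if_neg, if_neg]
      · exact fun hh => hb hh.2.1
      · exact fun hh => hb ((mem_twN_Fs h hc hU b).mp hh.2.2.2.1)

open Classical in
/-- The recursion at every level. -/
theorem recursionN [Nonempty J] (h : S.Ok) (hc : cd.Ok) (hU : ∀ c, c ∈ U ↔ cd.ValidN p c)
    (hp : cd.PVecN p) (hex : ∀ j, ex j ≠ 0) {i : ℕ} (hi : 1 ≤ i) :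
    (cd.nZN ex p (i + 1) : ℝ) ≤ (l + 1) * Nat.card V1 * cd.nZN ex p i +
      cd.nZN ex p (i - 1) * (cd.sumI ex p i).re := by
  have := h.fin1
  have : NeZero l := ⟨h.prime.ne_zero⟩
  have := Fintype.ofFinite U
  have hpsi : ∀ x : ZMod l, x ≠ 0 → psiC l x ≠ 1 := fun x hx h1 => hx (psiC_eq_one_iff.1 h1)
  have h1 := Tower.recursion_ind (psiC l) (twN_ok h hc hU hp (ex := ex)) hpsi hi
  have hK : (Nat.card (twN cd h hc ex p U hU).Kp : ℝ) ≤ Nat.card V1 := by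
    exact_mod_cast card_twN_Kp h hc hU hp hex
  have h2 := sum_pairs h hc hU hp hi (ex := ex) (fun a b => cd.Indep2N a b)
    (fun a b => (twN cd h hc ex p U hU).Ind a b) (fun a b => by
      rw [indep2N_iff h hc hU hp hex]
      refine ⟨fun hI => ⟨fun ha => ?_, hI⟩, fun hI => hI.2⟩
      have : Fact l.Prime := ⟨h.prime⟩
      have := (hI 1 0 (by rw [one_smul, zero_smul, add_zero]; exact ha)).1
      exact one_ne_zero this)
  rw [card_nZN h hc hU, card_nZN h hc hU, card_nZN h hc hU]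
  simp only [psiC_apply] at h1
  refine h1.trans ?_
  rw [sumI, h2]
  have e1 : (l : ℝ) * (Nat.card (twN cd h hc ex p U hU).Kp : ℝ) ^ 2 *
      Nat.card ((twN cd h hc ex p U hU).Z (i - 1)) ≥ 0 := by positivity
  have e2 : ((l : ℝ) + 1) * Nat.card (twN cd h hc ex p U hU).Kp *
      Nat.card ((twN cd h hc ex p U hU).Z i) ≤
      ((l : ℝ) + 1) * Nat.card V1 * Nat.card ((twN cd h hc ex p U hU).Z i) := by gcongr
  linarith

open Classical in
/-- The recursion used at the symmetric levels. -/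
theorem recursionN' [Nonempty J] (h : S.Ok) (hc : cd.Ok) (hU : ∀ c, c ∈ U ↔ cd.ValidN p c)
    (hp : cd.PVecN p) (hex : ∀ j, ex j ≠ 0) {i : ℕ} (hi : 1 ≤ i) :
    (cd.nZN ex p (i + 1) : ℝ) ≤ 2 * Nat.card V1 * cd.nZN ex p i +
      cd.nZN ex p (i - 1) * ((cd.sumI ex p i).re + (cd.sumD ex p i).re) := by
  have := h.fin1
  have : NeZero l := ⟨h.prime.ne_zero⟩
  have := Fintype.ofFinite U
  have := Fintype.ofFinite (cd.CodeN J)
  have hpsi : ∀ x : ZMod l, x ≠ 0 → psiC l x ≠ 1 := fun x hx h1 => hx (psiC_eq_one_iff.1 h1)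
  have h1 := Tower.recursion_sym (psiC l) (twN_ok h hc hU hp (ex := ex)) hpsi hi
  have hK : (Nat.card (twN cd h hc ex p U hU).Kp : ℝ) ≤ Nat.card V1 := by
    exact_mod_cast card_twN_Kp h hc hU hp hex
  have h2 := sum_pairs h hc hU hp hi (ex := ex)
    (fun a b => (∀ z, a ≠ cd.kapN J z) ∧ ∀ z, b ≠ cd.kapN J z)
    (fun _ b => b ∉ (twN cd h hc ex p U hU).Kp) (fun a b => by
      rw [notKap_iff h hc hU hp hex, notKap_iff h hc hU hp hex])
  have hsplit : (∑ᶠ ab : cd.CodeN J × cd.CodeN J,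
      if ab.1 ∈ cd.LflN (cd.FN ex p) (cd.LamN ex p) i ∧ ab.2 ∈ cd.FN ex p ∧
        ((∀ z, ab.1 ≠ cd.kapN J z) ∧ ∀ z, ab.2 ≠ cd.kapN J z) ∧
        cd.PerpN (cd.LamN ex p) (i - 1) ab.2 then psi (cd.FFN ex p i ab.1 ab.2) else 0) =
      cd.sumI ex p i + cd.sumD ex p i := by
    rw [sumI, sumD, finsum_eq_sum_of_fintype, finsum_eq_sum_of_fintype,
      finsum_eq_sum_of_fintype, ← Finset.sum_add_distrib]
    refine Finset.sum_congr rfl fun ab _ => ?_
    by_cases hI : cd.Indep2N ab.1 ab.2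
    · have hD := not_diag_of_indep h hI
      have hk := (indep_or_diag h ab.1 ab.2).2 (Or.inl hI)
      simp only [hI, hD, hk, true_and, false_and, and_false, if_false, add_zero]
      simp only [hk.1, hk.2, ne_eq, not_false_eq_true, implies_true, true_and]
    · by_cases hD : cd.DiagN ab.1 ab.2
      · have hk := (indep_or_diag h ab.1 ab.2).2 (Or.inr hD)
        simp only [hI, hD, true_and, false_and, and_false, if_false, zero_add]
        simp only [hk.1, hk.2, ne_eq, not_false_eq_true, implies_true, true_and]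
      · have hk : ¬ ((∀ z, ab.1 ≠ cd.kapN J z) ∧ ∀ z, ab.2 ≠ cd.kapN J z) := fun hk =>
          ((indep_or_diag h ab.1 ab.2).1 hk).elim hI hD
        rw [if_neg (fun hh => hk hh.2.2.1), if_neg (fun hh => hI hh.2.2.1),
          if_neg (fun hh => hD hh.2.2.1), add_zero]
  have h5 : cd.sumI ex p i + cd.sumD ex p i = ∑ a : U, ∑ b : U,
      if a ∈ (twN cd h hc ex p U hU).L i ∧ a ∉ (twN cd h hc ex p U hU).Kp ∧
        b ∉ (twN cd h hc ex p U hU).Kp ∧ (twN cd h hc ex p U hU).Perp (i - 1) b then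
          psi ((twN cd h hc ex p U hU).Fab i a b) else 0 := by
    rw [← hsplit]
    convert h2
  rw [card_nZN h hc hU, card_nZN h hc hU, card_nZN h hc hU]
  simp only [psiC_apply] at h1
  refine h1.trans ?_
  rw [← Complex.add_re, h5]
  have e1 : (Nat.card (twN cd h hc ex p U hU).Kp : ℝ) ^ 2 *
      Nat.card ((twN cd h hc ex p U hU).Z (i - 1)) ≥ 0 := by positivity
  have e2 : (2 : ℝ) * Nat.card (twN cd h hc ex p U hU).Kp *
      Nat.card ((twN cd h hc ex p U hU).Z i) ≤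
      (2 : ℝ) * Nat.card V1 * Nat.card ((twN cd h hc ex p U hU).Z i) := by gcongr
  linarith

/-! ### The adapted basis -/

theorem exists_basD [Nonempty J] (h : S.Ok) (hc : cd.Ok) (hU : ∀ c, c ∈ U ↔ cd.ValidN p c)
    (hp : cd.PVecN p) (hex : ∀ j, ex j ≠ 0) {m r : ℕ} {cc : Fin r → U} {la : Fin r}
    (had : Adapted (twN cd h hc ex p U hU).Fs (twN cd h hc ex p U hU).L
      (twN cd h hc ex p U hU).Kp m cc) :
    (∀ x ∈ cd.FN ex p, ∃ (α : Fin r → ZMod l) (z : V1),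
      x = cd.kapN J z + ∑ k, α k • (cc k).1) ∧
    (∀ (α : Fin r → ZMod l) (z : V1), ∑ k, α k • (cc k).1 = cd.kapN J z → α = 0) ∧
    (∀ i, 1 ≤ i → i ≤ m → ∀ x ∈ cd.LflN (cd.FN ex p) (cd.LamN ex p) i,
      ∃ (α : Fin r → ZMod l) (z : V1), x = cd.kapN J z + ∑ k, α k • (cc k).1 ∧
        ∀ k, α k ≠ 0 → (cc k).1 ∈ cd.LflN (cd.FN ex p) (cd.LamN ex p) i) := by
  have hcoe : ∀ α : Fin r → ZMod l, ((∑ k, α k • cc k : U) : cd.CodeN J) = ∑ k, α k • (cc k).1 := by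
    intro α
    rw [Submodule.coe_sum]
    rfl
  have hsp : ∀ x ∈ cd.FN ex p, ∃ (α : Fin r → ZMod l) (z : V1),
      x = cd.kapN J z + ∑ k, α k • (cc k).1 := by
    intro x hx
    have hxU := FN_le hU hx
    obtain ⟨α, hα⟩ := had.span ⟨x, hxU⟩ ((mem_twN_Fs h hc hU ⟨x, hxU⟩).mpr hx)
    obtain ⟨z, hz⟩ := (mem_twN_Kp h hc hU hp hex _).mp hα
    refine ⟨α, z, ?_⟩
    rw [← hz, ← hcoe]
    change x = (x - _) + _
    rw [sub_add_cancel]
  refine ⟨hsp, ?_, ?_⟩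
  · intro α z hα
    refine had.indep α ((mem_twN_Kp h hc hU hp hex _).mpr ⟨z, ?_⟩)
    rw [hcoe]
    exact hα
  · intro i hi him x hx
    obtain ⟨α, z, hxe⟩ := hsp x (LflN_sub_FN h hc hU hp hi hx)
    refine ⟨α, z, hxe, fun k hk => ?_⟩
    have hxU := FN_le hU (LflN_sub_FN h hc hU hp hi hx)
    rw [mem_LflN_iff_tw h hc hU hp hi]
    refine had.adapt i hi him α ?_ k hk
    have e : ∑ k, α k • cc k = (⟨x, hxU⟩ : U) - ⟨cd.kapN J z, kap_mem_U hU z⟩ := by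
      apply Subtype.ext
      rw [hcoe]
      change _ = x - cd.kapN J z
      rw [hxe, add_sub_cancel_left]
    rw [e]
    exact Submodule.sub_mem _ ((mem_LflN_iff_tw h hc hU hp hi ⟨x, hxU⟩).mp hx)
      (Tower.kp_le_L (twN_ok h hc hU hp) hi ((mem_twN_Kp h hc hU hp hex _).mpr ⟨z, rfl⟩))

theorem exists_basisN [Nonempty J] (h : S.Ok) (hc : cd.Ok) (hU : ∀ c, c ∈ U ↔ cd.ValidN p c)
    (hp : cd.PVecN p) (hex : ∀ j, ex j ≠ 0) {m : ℕ} (hm : 1 ≤ m) (a b : U)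
    (ha : a.1 ∈ cd.LflN (cd.FN ex p) (cd.LamN ex p) m) (hb : b.1 ∈ cd.FN ex p)
    (hI : cd.Indep2N a.1 b.1) :
    Nonempty (cd.BasN (cd.FN ex p) (cd.LflN (cd.FN ex p) (cd.LamN ex p)) m a.1 b.1) := by
  obtain ⟨r, cc, la, lb, β, had, h1, h2, h3, h4, h5⟩ :=
    Tower.exists_basis (twN_ok h hc hU hp) hm
    ((mem_LflN_iff_tw h hc hU hp hm a).mp ha) ((mem_twN_Fs h hc hU b).mpr hb)
    ((indep2N_iff h hc hU hp hex a b).mp hI)
  obtain ⟨e1, e2, e3⟩ := exists_basD h hc hU hp hex (la := la) had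
  refine ⟨⟨⟨r, fun k => (cc k).1, la, by rw [h1],
    fun k => (mem_twN_Fs h hc hU _).mp (had.mem k), e1, e2, e3⟩, lb, h5.symm, β, ?_, h3, h4⟩⟩
  rw [h2, Submodule.coe_sum]
  rfl

theorem exists_basisD [Nonempty J] (h : S.Ok) (hc : cd.Ok) (hU : ∀ c, c ∈ U ↔ cd.ValidN p c)
    (hp : cd.PVecN p) (hex : ∀ j, ex j ≠ 0) {m : ℕ} (hm : 1 ≤ m) (a : U)
    (ha : a.1 ∈ cd.LflN (cd.FN ex p) (cd.LamN ex p) m) (ha' : ∀ z, a.1 ≠ cd.kapN J z) :
    Nonempty (cd.BasD (cd.FN ex p) (cd.LflN (cd.FN ex p) (cd.LamN ex p)) m a.1) := by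
  obtain ⟨r, cc, la, had, h1⟩ :=
    Tower.exists_basisD (twN_ok h hc hU hp) hm
    ((mem_LflN_iff_tw h hc hU hp hm a).mp ha) ((notKap_iff h hc hU hp hex a).mpr ha')
  obtain ⟨e1, e2, e3⟩ := exists_basD h hc hU hp hex (la := la) had
  exact ⟨⟨r, fun k => (cc k).1, la, by rw [h1],
    fun k => (mem_twN_Fs h hc hU _).mp (had.mem k), e1, e2, e3⟩⟩

end Pool.Agent.SmL.CData
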