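import Pool.Agent.Lib.SmL.Cnt.Stmts
import Pool.Agent.Lib.SmL.G.CT

/-!
# SMITH-L, block G6: the codes of the cocycles of a twist by a vector of marked primes
-/

set_option autoImplicit false

open Finset

namespace Pool.Agent.SmL

section

variable {l : ℕ} {A G V V1 Pl : Type} [CommRing A] [Group G] [AddCommGroup V] [Module A V]
  [DistribMulAction G V] [AddCommGroup V1] [Module (ZMod l) V1] {S : Sys l A G V V1 Pl}

theorem Sys.ac_inv_cancel (g : G) (w : V1) : S.ac g (S.ac g⁻¹ w) = w := by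
  rw [← LinearEquiv.mul_apply, ← map_mul, mul_inv_cancel, map_one]; rfl

theorem Sys.ac_cancel_inv (g : G) (w : V1) : S.ac g⁻¹ (S.ac g w) = w := by
  rw [← LinearEquiv.mul_apply, ← map_mul, inv_mul_cancel, map_one]; rfl

theorem Sys.ac_mul (g k : G) (w : V1) : S.ac (g * k) w = S.ac g (S.ac k w) := by
  rw [map_mul, LinearEquiv.mul_apply]

end

namespace CData

variable {l : ℕ} {A G V V1 Pl : Type} [CommRing A] [Group G] [AddCommGroup V] [Module A V]
  [DistribMulAction G V] [AddCommGroup V1] [Module (ZMod l) V1] {S : Sys l A G V V1 Pl}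
  {X : PSys} {cd : CData S X}

/-! ### One marked prime -/

theorem fx_iff (x : cd.Mk) (w : V1) :
    cd.Fx x w ↔ S.ac (S.phi (cd.pl x.1)) (S.ac x.2.1⁻¹ w) = S.ac x.2.1⁻¹ w := by
  rw [Fx, phx, Sys.ac_mul, Sys.ac_mul]
  constructor
  · intro h
    have := congrArg (S.ac x.2.1⁻¹) h
    rwa [Sys.ac_cancel_inv] at this
  · intro h
    rw [h, Sys.ac_inv_cancel]

theorem fx_zero (x : cd.Mk) : cd.Fx x 0 := map_zero _

theorem fx_add {x : cd.Mk} {w w' : V1} (h : cd.Fx x w) (h' : cd.Fx x w') : cd.Fx x (w + w') := by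
  have h1 : S.ac (cd.phx x) w = w := h
  have h2 : S.ac (cd.phx x) w' = w' := h'
  change S.ac (cd.phx x) (w + w') = w + w'
  rw [map_add, h1, h2]

theorem fx_neg {x : cd.Mk} {w : V1} (h : cd.Fx x w) : cd.Fx x (-w) := by
  have h1 : S.ac (cd.phx x) w = w := h
  change S.ac (cd.phx x) (-w) = -w
  rw [map_neg, h1]

theorem fx_sub {x : cd.Mk} {w w' : V1} (h : cd.Fx x w) (h' : cd.Fx x w') : cd.Fx x (w - w') := by
  rw [sub_eq_add_neg]
  exact fx_add h (fx_neg h')

theorem fx_smul {x : cd.Mk} {w : V1} (a : ZMod l) (h : cd.Fx x w) : cd.Fx x (a • w) := by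
  have h1 : S.ac (cd.phx x) w = w := h
  change S.ac (cd.phx x) (a • w) = a • w
  rw [map_smul, h1]

theorem bex_coc (hc : cd.Ok) {x : cd.Mk} {w : V1} (h : cd.Fx x w) : S.CocG (cd.bex x w) :=
  hc.be_coc _ _ ((fx_iff x w).1 h)

theorem bex_add (hc : cd.Ok) {x : cd.Mk} {w w' : V1} (h : cd.Fx x w) (h' : cd.Fx x w') :
    cd.bex x (w + w') = cd.bex x w + cd.bex x w' := by
  have := hc.be_add x.1 _ _ ((fx_iff x w).1 h) ((fx_iff x w').1 h')
  rw [← map_add] at this
  exact this

theorem bex_zero (hc : cd.Ok) (x : cd.Mk) : cd.bex x 0 = 0 := by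
  have := bex_add hc (fx_zero x) (fx_zero x)
  rw [add_zero] at this
  exact left_eq_add.mp this

theorem bex_neg (hc : cd.Ok) {x : cd.Mk} {w : V1} (h : cd.Fx x w) :
    cd.bex x (-w) = -cd.bex x w := by
  have := bex_add hc h (fx_neg h)
  rw [add_neg_cancel, bex_zero hc] at this
  exact (neg_eq_of_add_eq_zero_right this.symm).symm

theorem bex_sub (hc : cd.Ok) {x : cd.Mk} {w w' : V1} (h : cd.Fx x w) (h' : cd.Fx x w') :
    cd.bex x (w - w') = cd.bex x w - cd.bex x w' := by
  rw [sub_eq_add_neg, bex_add hc h (fx_neg h'), bex_neg hc h', sub_eq_add_neg]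

theorem bex_nsmul (hc : cd.Ok) {x : cd.Mk} {w : V1} (n : ℕ) (h : cd.Fx x w) :
    cd.bex x (n • w) = n • cd.bex x w := by
  have hn : ∀ n : ℕ, cd.Fx x (n • w) := by
    intro n
    induction n with
    | zero => rw [zero_smul]; exact fx_zero x
    | succ n ih => rw [succ_nsmul]; exact fx_add ih h
  induction n with
  | zero => rw [zero_smul, zero_smul, bex_zero hc]
  | succ n ih => rw [succ_nsmul, succ_nsmul, bex_add hc (hn n) h, ih]

theorem bex_smul (hc : cd.Ok) (hl : l ≠ 0) {x : cd.Mk} {w : V1} (a : ZMod l) (h : cd.Fx x w) :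
    cd.bex x (a • w) = a • cd.bex x w := by
  have : NeZero l := ⟨hl⟩
  have e : ∀ {B : Type} [AddCommGroup B] [Module (ZMod l) B] (b : B), a • b = a.val • b := by
    intro B _ _ b
    rw [← Nat.cast_smul_eq_nsmul (ZMod l), ZMod.natCast_zmod_val]
  rw [e, e, bex_nsmul hc _ h]

theorem bex_self (hc : cd.Ok) {x : cd.Mk} {w : V1} (h : cd.Fx x w) :
    cd.bex x w (S.sg (cd.pl x.1)) = S.ac x.2.1⁻¹ w :=
  hc.be_self _ _ ((fx_iff x w).1 h)

theorem bex_unr (hc : cd.Ok) {x : cd.Mk} {w : V1} (h : cd.Fx x w) {Q : X.Pr} (hQ : Q ≠ x.1) :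
    cd.bex x w (S.sg (cd.pl Q)) = 0 :=
  hc.be_unr _ _ _ hQ ((fx_iff x w).1 h)

theorem hb_coc (hc : cd.Ok) (c : Fin cd.h → ZMod l) : S.CocG (cd.hb c) :=
  ((hc.hb_range _).1 ⟨c, rfl⟩).1

theorem hb_unr (hc : cd.Ok) (c : Fin cd.h → ZMod l) : cd.Unr (cd.hb c) :=
  ((hc.hb_range _).1 ⟨c, rfl⟩).2

/-! ### Vectors -/

variable {J : Type} {p : J → cd.Mk}

theorem valid_zero (p : J → cd.Mk) : cd.ValidN p (0 : cd.CodeN J) := fun j => fx_zero (p j)

/-- The valid codes. -/
def VF (cd : CData S X) (p : J → cd.Mk) : Submodule (ZMod l) (cd.CodeN J) where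
  carrier := {c | cd.ValidN p c}
  zero_mem' := valid_zero p
  add_mem' := fun ha hb j => fx_add (ha j) (hb j)
  smul_mem' := fun a _ hc j => fx_smul a (hc j)

theorem mem_VF {c : cd.CodeN J} : c ∈ cd.VF p ↔ cd.ValidN p c := Iff.rfl

theorem valid_kap (p : J → cd.Mk) (z : V1) : cd.ValidN p (cd.kapN J z) := fun j => fx_zero (p j)

theorem kapN_add (z z' : V1) : cd.kapN J (z + z') = cd.kapN J z + cd.kapN J z' := by
  rw [kapN, kapN, kapN, map_add, Prod.mk_add_mk, add_zero]

theorem kapN_zero : cd.kapN J (0 : V1) = 0 := by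
  rw [kapN, map_zero]; rfl

theorem kapN_smul (a : ZMod l) (z : V1) : cd.kapN J (a • z) = a • cd.kapN J z := by
  rw [kapN, kapN, map_smul, Prod.smul_mk, smul_zero]

variable [Fintype J]

theorem homN_zero (hc : cd.Ok) : cd.homN p 0 = 0 := by
  funext s
  rw [homN]
  simp only [Prod.fst_zero, map_zero, Prod.snd_zero, Pi.zero_apply, bex_zero hc,
    Finset.sum_const_zero, add_zero]

theorem homN_add (hc : cd.Ok) {c c' : cd.CodeN J} (h : cd.ValidN p c) (h' : cd.ValidN p c') :
    cd.homN p (c + c') = cd.homN p c + cd.homN p c' := by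
  funext s
  rw [Pi.add_apply, homN, homN, homN, Prod.fst_add, map_add, Pi.add_apply]
  have : ∀ j, cd.bex (p j) ((c + c').2 j) s = cd.bex (p j) (c.2 j) s + cd.bex (p j) (c'.2 j) s := by
    intro j
    have := bex_add hc (h j) (h' j)
    exact congrFun this s
  rw [Finset.sum_congr rfl fun j _ => this j, Finset.sum_add_distrib]
  abel

theorem homN_neg (hc : cd.Ok) {c : cd.CodeN J} (h : cd.ValidN p c) :
    cd.homN p (-c) = -cd.homN p c := by
  have := homN_add hc h ((cd.VF p).neg_mem h)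
  rw [add_neg_cancel, homN_zero hc] at this
  exact (neg_eq_of_add_eq_zero_right this.symm).symm

theorem homN_sub (hc : cd.Ok) {c c' : cd.CodeN J} (h : cd.ValidN p c) (h' : cd.ValidN p c') :
    cd.homN p (c - c') = cd.homN p c - cd.homN p c' := by
  rw [sub_eq_add_neg, homN_add hc h ((cd.VF p).neg_mem h'), homN_neg hc h', sub_eq_add_neg]

theorem homN_smul (hc : cd.Ok) (hl : l ≠ 0) (a : ZMod l) {c : cd.CodeN J} (h : cd.ValidN p c) :
    cd.homN p (a • c) = a • cd.homN p c := by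
  funext s
  rw [Pi.smul_apply, homN, homN, Prod.smul_fst, map_smul, Pi.smul_apply, smul_add,
    Finset.smul_sum]
  congr 1
  refine Finset.sum_congr rfl fun j _ => ?_
  rw [Prod.smul_snd, Pi.smul_apply, bex_smul hc hl a (h j), Pi.smul_apply]

theorem homN_kap (hc : cd.Ok) (z : V1) (s : G) : cd.homN p (cd.kapN J z) s = S.ac s z - z := by
  rw [homN, kapN]
  simp only [Pi.zero_apply, bex_zero hc, Finset.sum_const_zero, add_zero, hc.kb_eq]

theorem cocG_sum (hS : S.Ok) {ι : Type} (t : Finset ι) (f : ι → G → V1)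
    (hf : ∀ i ∈ t, S.CocG (f i)) : S.CocG (fun s => ∑ i ∈ t, f i s) := by
  classical
  induction t using Finset.induction_on with
  | empty =>
    have := Sys.CocG.zero hS
    refine (congrArg S.CocG ?_).mp this
    funext s
    rw [Finset.sum_empty]
    rfl
  | insert a t ha ih =>
    have h1 := hf a (Finset.mem_insert_self a t)
    have h2 := ih fun i hi => hf i (Finset.mem_insert_of_mem hi)
    have := Sys.CocG.add hS h1 h2
    refine (congrArg S.CocG ?_).mp this
    funext s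
    rw [Finset.sum_insert ha]
    rfl

theorem homN_coc (hS : S.Ok) (hc : cd.Ok) {c : cd.CodeN J} (h : cd.ValidN p c) :
    S.CocG (cd.homN p c) :=
  Sys.CocG.add hS (hb_coc hc c.1)
    (cocG_sum hS univ (fun j => cd.bex (p j) (c.2 j)) fun j _ => bex_coc hc (h j))

theorem homG_sum (hS : S.Ok) {ι : Type} (t : Finset ι) (f : ι → G → ZMod l)
    (hf : ∀ i ∈ t, S.HomG (f i)) : S.HomG (fun s => ∑ i ∈ t, f i s) := by
  classical
  induction t using Finset.induction_on with
  | empty =>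
    have := Sys.HomG.zero (B := ZMod l) hS
    refine (congrArg S.HomG ?_).mp this
    funext s
    rw [Finset.sum_empty]
    rfl
  | insert a t ha ih =>
    have h1 := hf a (Finset.mem_insert_self a t)
    have h2 := ih fun i hi => hf i (Finset.mem_insert_of_mem hi)
    have := Sys.HomG.add hS h1 h2
    refine (congrArg S.HomG ?_).mp this
    funext s
    rw [Finset.sum_insert ha]
    rfl

omit [Fintype J] in
theorem homG_mul {c : G → ZMod l} (hc : S.HomG c) (a : ZMod l) : S.HomG (fun s => a * c s) :=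
  ⟨hc.1.comp (fun x => a * x), fun s t => by
    change a * c (s * t) = a * c s + a * c t
    rw [hc.2 s t, mul_add]⟩

theorem chiN_hom (hS : S.Ok) (hc : cd.Ok) (ex : J → ZMod l) (p : J → cd.Mk) :
    S.HomG (cd.chiN ex p) :=
  Sys.HomG.add hS hc.chi0_hom
    (homG_sum hS univ (fun j s => ex j * cd.ch (p j).1 s) fun j _ => homG_mul (hc.ch_hom _) _)

variable {ex : J → ZMod l}

theorem chiN_ram (hc : cd.Ok) (hp : cd.PVecN p) (j : J) :
    cd.chiN ex p (S.sg (cd.pl (p j).1)) = ex j := by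
  classical
  rw [chiN, hc.chi0_unr, zero_add, Finset.sum_eq_single j]
  · rw [hc.ch_self, mul_one]
  · intro j' _ hj'
    rw [hc.ch_unr _ _ fun h => hj' (hp h.symm), mul_zero]
  · intro h
    exact absurd (Finset.mem_univ j) h

theorem chiN_unr (hc : cd.Ok) {Q : X.Pr} (hQ : ∀ j, (p j).1 ≠ Q) :
    cd.chiN ex p (S.sg (cd.pl Q)) = 0 := by
  rw [chiN, hc.chi0_unr, zero_add]
  exact Finset.sum_eq_zero fun j _ => by rw [hc.ch_unr _ _ fun h => hQ j h.symm, mul_zero]

theorem homN_ram (hc : cd.Ok) (hp : cd.PVecN p) {c : cd.CodeN J} (h : cd.ValidN p c) (j : J) :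
    cd.homN p c (S.sg (cd.pl (p j).1)) = S.ac (p j).2.1⁻¹ (c.2 j) := by
  classical
  rw [homN, hb_unr hc, zero_add, Finset.sum_eq_single j]
  · exact bex_self hc (h j)
  · intro j' _ hj'
    exact bex_unr hc (h j') fun h => hj' (hp h.symm)
  · intro h
    exact absurd (Finset.mem_univ j) h

theorem homN_unr (hc : cd.Ok) {c : cd.CodeN J} (h : cd.ValidN p c) {Q : X.Pr}
    (hQ : ∀ j, (p j).1 ≠ Q) : cd.homN p c (S.sg (cd.pl Q)) = 0 := by
  rw [homN, hb_unr hc, zero_add]
  exact Finset.sum_eq_zero fun j _ => bex_unr hc (h j) fun h => hQ j h.symm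

/-- A valid code is determined by its cocycle. -/
theorem homN_inj_zero (hc : cd.Ok) (hp : cd.PVecN p) {c : cd.CodeN J} (h : cd.ValidN p c)
    (h0 : cd.homN p c = 0) : c = 0 := by
  have h2 : c.2 = 0 := by
    funext j
    have := homN_ram hc hp h j
    rw [h0, Pi.zero_apply] at this
    have h3 := congrArg (S.ac (p j).2.1) this
    rw [Sys.ac_inv_cancel, map_zero] at h3
    exact h3.symm
  have h1 : cd.hb c.1 = 0 := by
    funext s
    have := congrFun h0 s
    rw [homN, h2] at this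
    simpa only [Pi.zero_apply, bex_zero hc, Finset.sum_const_zero, add_zero] using this
  have h3 : c.1 = 0 := hc.hb_inj (h1.trans (map_zero _).symm)
  exact Prod.ext h3 h2

theorem homN_inj (hc : cd.Ok) (hp : cd.PVecN p) {c c' : cd.CodeN J} (h : cd.ValidN p c)
    (h' : cd.ValidN p c') (h0 : cd.homN p c = cd.homN p c') : c = c' := by
  have := homN_inj_zero hc hp (c := c - c') ((cd.VF p).sub_mem h h')
    (by rw [homN_sub hc h h', h0, sub_self])
  exact sub_eq_zero.1 this

/-- Every cocycle which is unramified outside of the bad places and the entries has a valid code. -/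
theorem homN_surj_of (hS : S.Ok) (hc : cd.Ok) (hp : cd.PVecN p) {b : G → V1} (hb : S.CocG b)
    (hun : ∀ Q, (∀ j, (p j).1 ≠ Q) → b (S.sg (cd.pl Q)) = 0) :
    ∃ c : cd.CodeN J, cd.ValidN p c ∧ cd.homN p c = b := by
  classical
  set w : J → V1 := fun j => S.ac (p j).2.1 (b (S.sg (cd.pl (p j).1))) with hw
  have hval : ∀ j, cd.Fx (p j) (w j) := by
    intro j
    rw [fx_iff, hw]
    simp only [Sys.ac_cancel_inv]
    exact Sys.cp_fix hS (hc.pl_good _) (Sys.loc_mem_CP hb (cd.pl (p j).1))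
  have hval' : ∀ j, cd.Fx (p j) (-w j) := fun j => fx_neg (hval j)
  have hc0 : cd.ValidN p (0, -w) := hval'
  have hcoc : S.CocG (cd.homN p (0, -w)) := homN_coc hS hc hc0
  have hd : S.CocG (b + cd.homN p (0, -w)) := Sys.CocG.add hS hb hcoc
  have hunr : cd.Unr (b + cd.homN p (0, -w)) := by
    intro Q
    rw [Pi.add_apply]
    by_cases hQ : ∃ j, (p j).1 = Q
    · obtain ⟨j, rfl⟩ := hQ
      rw [homN_ram hc hp hc0 j, hw]
      simp only [Pi.neg_apply, map_neg, Sys.ac_cancel_inv]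
      exact add_neg_cancel _
    · push Not at hQ
      rw [homN_unr hc hc0 hQ, add_zero]
      exact hun Q hQ
  obtain ⟨c1, h1⟩ := (hc.hb_range _).2 ⟨hd, hunr⟩
  refine ⟨(c1, w), hval, ?_⟩
  funext s
  have h2 := congrFun h1 s
  have h3 : ∀ j, cd.bex (p j) (-w j) s = -cd.bex (p j) (w j) s := fun j =>
    congrFun (bex_neg hc (hval j)) s
  rw [homN]
  rw [Pi.add_apply, homN] at h2
  simp only [Pi.neg_apply] at h2 ⊢
  rw [h2, map_zero, Pi.zero_apply, zero_add, Finset.sum_congr rfl fun j _ => h3 j,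
    Finset.sum_neg_distrib, neg_add_cancel_right]

/-- Every Selmer cocycle has a valid code. -/
theorem homN_surj (hS : S.Ok) (hc : cd.Ok) (hp : cd.PVecN p) {b : G → V1}
    (hb : S.IsSel1 (cd.chiN ex p) b) : ∃ c : cd.CodeN J, cd.ValidN p c ∧ cd.homN p c = b := by
  refine homN_surj_of hS hc hp hb.1 fun Q hQ => ?_
  have h1 := hb.2 (cd.pl Q)
  rw [Sys.mem_Wl_good hS (chiN_hom hS hc ex p) (hc.pl_good Q) (chiN_unr hc hQ)] at h1
  exact h1

theorem mem_FN {c : cd.CodeN J} :
    c ∈ cd.FN ex p ↔ cd.ValidN p c ∧ S.IsSel1 (cd.chiN ex p) (cd.homN p c) := Iff.rfl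

/-- A point whose coboundary is killed by `lam` is killed by `lam`. -/
theorem two_of_dl (hS : S.Ok) (hc : cd.Ok) (hp : cd.PVecN p) {j : J} (hj : ex j ≠ 0) {Q : V}
    (hQ : ∀ s, S.lam • S.dl (cd.chiN ex p) Q s = 0) : S.lam • Q = 0 := by
  have h1 : S.lam • (S.lam • Q) = 0 := by
    have := hQ (S.sg (cd.pl (p j).1))
    rw [← Sys.dl_smul hS] at this
    exact Sys.fill_cob hS (hc.pl_good _) (by rw [chiN_ram hc hp j]; exact hj) this
  obtain ⟨w, hw⟩ := hS.iota_range _ h1
  have h2 : w = 0 := by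
    refine hc.nofix w fun s => ?_
    have := hQ s
    rw [← Sys.dl_smul hS, ← hw, Sys.dl_iota hS, Sys.iota_eq_zero hS, sub_eq_zero] at this
    exact this
  rw [← hw, h2, map_zero]

end CData

end Pool.Agent.SmL
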