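import Mathlib

/-!
# SMITH-L, block G6: the abstract tower of Selmer cocycles at a prime `l`

`M` is a module over `A`, `lam` in `A`; `Z j` = Selmer cocycles of level `j` (killed by `lam ^ j`),
`T` = all coboundaries, `P m b` = the pairing (`b` in `Z 1`). `F` is a finite space of ALL codes over
`ZMod l`, `c : F → M` the cochain of a code, `Fs` the codes of the elements of `Z 1` (so different
towers can be compared inside the same `F`). `Tower.Ok` collects what block G delivers; everything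
below is pure algebra.

`ev m` = the total function `b ↦ ⟨m, c b⟩` on `F`, zero outside `Fs`; `Lam j` = the relations,
`L j` = the flag, `Kp ⊂ Fs` = the codes of the torsion cocycles, numbering `1 ≤ j`.
-/

set_option autoImplicit false

namespace Pool.Agent.SmL

/-- The data of a tower. -/
structure Tower (l : ℕ) (A F M : Type*) [CommRing A] [AddCommGroup F] [Module (ZMod l) F]
    [AddCommGroup M] [Module A M] where
  lam : A
  Z : ℕ → AddSubgroup M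
  T : AddSubgroup M
  P : M → M → ZMod l
  c : F →+ M
  Fs : Submodule (ZMod l) F

namespace Tower

variable {l : ℕ} {A F M : Type*} [CommRing A] [AddCommGroup F] [Module (ZMod l) F]
  [AddCommGroup M] [Module A M] (W : Tower l A F M)

/-- What block G delivers. -/
structure Ok : Prop where
  prime : l.Prime
  fin : Finite F
  zero : W.Z 0 = ⊥
  mono : ∀ j, W.Z j ≤ W.Z (j + 1)
  smul : ∀ j, ∀ m ∈ W.Z j, W.lam • m ∈ W.Z j
  lev : ∀ j, ∀ m ∈ W.Z j, W.lam ^ j • m = 0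
  low : ∀ j, ∀ m ∈ W.Z (j + 1), W.lam ^ j • m = 0 → m ∈ W.Z j
  addl : ∀ j, ∀ m ∈ W.Z j, ∀ m' ∈ W.Z j, ∀ b ∈ W.Z 1, W.P (m + m') b = W.P m b + W.P m' b
  addr : ∀ j, ∀ m ∈ W.Z j, ∀ b ∈ W.Z 1, ∀ b' ∈ W.Z 1, W.P m (b + b') = W.P m b + W.P m b'
  crit : ∀ j, ∀ m ∈ W.Z j, (∀ b ∈ W.Z 1, W.P m b = 0) ↔ ∃ m' ∈ W.Z (j + 1), W.lam • m' = m
  ttor : ∀ t ∈ W.T, ∃ j, W.lam ^ j • t = 0
  tdiv : ∀ t ∈ W.T, ∃ t' ∈ W.T, W.lam • t' = t
  tsmul : ∀ t ∈ W.T, W.lam • t ∈ W.T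
  tlev : ∀ j, ∀ t ∈ W.T, W.lam ^ j • t = 0 → t ∈ W.Z j
  clam : ∀ a, W.lam • W.c a = 0
  cinj : Function.Injective W.c
  crange : ∀ m, m ∈ W.Z 1 ↔ ∃ a ∈ W.Fs, W.c a = m

/-- The function `b ↦ ⟨m, c b⟩`, extended by zero outside `Fs`. -/
noncomputable def ev (m : M) (b : F) : ZMod l :=
  open Classical in if b ∈ W.Fs then W.P m (W.c b) else 0

/-- The relations `Λ_j` (`1 ≤ j`). -/
def Lam (j : ℕ) : Set (F × (F → ZMod l)) :=
  {p | ∃ m ∈ W.Z j, W.lam ^ (j - 1) • m = W.c p.1 ∧ p.2 = W.ev m}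

/-- `L_j` = the elements of `F` which are `lam ^ (j-1)` times a cocycle of level `j` (`1 ≤ j`). -/
def L (j : ℕ) : Submodule (ZMod l) F :=
  AddSubgroup.toZModSubmodule l
    (((W.Z j).map (DistribSMul.toAddMonoidHom M (W.lam ^ (j - 1)))).comap W.c)

/-- The codes of the torsion cocycles. -/
def Kp : Submodule (ZMod l) F := AddSubgroup.toZModSubmodule l (W.T.comap W.c)

/-- `b` (in `Fs`) is orthogonal to `Z j`. -/
def Perp (j : ℕ) (b : F) : Prop := b ∈ W.Fs ∧ ∀ m ∈ W.Z j, W.P m (W.c b) = 0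

/-- `⟨Psi, b⟩` for any `Psi` in `Z j` with `lam ^ (j-1) Psi = a` (well defined if
`Perp (j-1) b`). -/
noncomputable def Fab (j : ℕ) (a b : F) : ZMod l :=
  open Classical in
  if h : ∃ m ∈ W.Z j, W.lam ^ (j - 1) • m = W.c a then W.P h.choose (W.c b) else 0

/-- `a`, `b` are independent modulo `Kp`. -/
def Ind (a b : F) : Prop := ∀ x y : ZMod l, x • a + y • b ∈ W.Kp → x = 0 ∧ y = 0

theorem mem_L (j : ℕ) (a : F) : a ∈ W.L j ↔ ∃ m ∈ W.Z j, W.lam ^ (j - 1) • m = W.c a := by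
  rw [L, AddSubgroup.mem_toZModSubmodule, AddSubgroup.mem_comap, AddSubgroup.mem_map]
  rfl

theorem mem_Kp (a : F) : a ∈ W.Kp ↔ W.c a ∈ W.T := by
  rw [Kp, AddSubgroup.mem_toZModSubmodule, AddSubgroup.mem_comap]

end Tower

/-- A basis `cc` of `Fs` modulo `K`, adapted to the flag `Fs = Lf 1 ⊇ … ⊇ Lf k ⊇ K`. -/
structure Adapted {l : ℕ} {F : Type*} [AddCommGroup F] [Module (ZMod l) F]
    (Fs : Submodule (ZMod l) F) (Lf : ℕ → Submodule (ZMod l) F) (K : Submodule (ZMod l) F)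
    (k : ℕ) {r : ℕ} (cc : Fin r → F) : Prop where
  mem : ∀ i, cc i ∈ Fs
  indep : ∀ x : Fin r → ZMod l, ∑ i, x i • cc i ∈ K → x = 0
  span : ∀ a ∈ Fs, ∃ x : Fin r → ZMod l, a - ∑ i, x i • cc i ∈ K
  adapt : ∀ j, 1 ≤ j → j ≤ k → ∀ x : Fin r → ZMod l, ∑ i, x i • cc i ∈ Lf j →
    ∀ i, x i ≠ 0 → cc i ∈ Lf j

end Pool.Agent.SmL
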